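import Mathlib

/-!
Lazy transpositions acting on functions of one point and of pairs of points.
-/

namespace Pool.Agent.NH92.Shuf

open Finset

/-- A lazy transposition on `V`: exchange `a` and `b` with probability `p`. -/
structure Lz (V : Type*) where
  a : V
  b : V
  p : ℝ

variable {V W : Type*} [DecidableEq V] [DecidableEq W]

/-- effect on a function of one point -/
noncomputable def st1 (t : Lz V) (g : V → ℝ) : V → ℝ :=
  fun x => (1 - t.p) * g x + t.p * g (Equiv.swap t.a t.b x)

/-- effect on a function of two points -/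
noncomputable def st (t : Lz V) (f : V → V → ℝ) : V → V → ℝ :=
  fun x y => (1 - t.p) * f x y + t.p * f (Equiv.swap t.a t.b x) (Equiv.swap t.a t.b y)

/-- lists are in time order: the head acts first on the point -/
noncomputable def run1 (L : List (Lz V)) (g : V → ℝ) : V → ℝ := L.foldr st1 g

noncomputable def run (L : List (Lz V)) (f : V → V → ℝ) : V → V → ℝ := L.foldr st f

@[simp] theorem run1_nil (g : V → ℝ) : run1 [] g = g := rfl
@[simp] theorem run_nil (f : V → V → ℝ) : run [] f = f := rfl
theorem run1_cons (t : Lz V) (L) (g : V → ℝ) : run1 (t :: L) g = st1 t (run1 L g) := rfl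
theorem run_cons (t : Lz V) (L) (f : V → V → ℝ) : run (t :: L) f = st t (run L f) := rfl

theorem run1_append (L M : List (Lz V)) (g : V → ℝ) : run1 (L ++ M) g = run1 L (run1 M g) := by
  simp [run1, List.foldr_append]

theorem run_append (L M : List (Lz V)) (f : V → V → ℝ) : run (L ++ M) f = run L (run M f) := by
  simp [run, List.foldr_append]

/-- linearity -/
theorem run_lin (L : List (Lz V)) (f f' : V → V → ℝ) (c c' : ℝ) (x y : V) :
    run L (fun a b => c * f a b + c' * f' a b) x y = c * run L f x y + c' * run L f' x y := by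
  induction L generalizing x y with
  | nil => simp
  | cons t L ih => simp only [run_cons, st, ih]; ring

theorem run1_lin (L : List (Lz V)) (f f' : V → ℝ) (c c' : ℝ) (x : V) :
    run1 L (fun a => c * f a + c' * f' a) x = c * run1 L f x + c' * run1 L f' x := by
  induction L generalizing x with
  | nil => simp
  | cons t L ih => simp only [run1_cons, st1, ih]; ring

theorem run_const (L : List (Lz V)) (c : ℝ) (x y : V) : run L (fun _ _ => c) x y = c := by
  induction L generalizing x y with
  | nil => simp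
  | cons t L ih => simp only [run_cons, st, ih]; ring

theorem run1_const (L : List (Lz V)) (c : ℝ) (x : V) : run1 L (fun _ => c) x = c := by
  induction L generalizing x with
  | nil => simp
  | cons t L ih => simp only [run1_cons, st1, ih]; ring

/-- functions of the first point only -/
theorem run_fst (L : List (Lz V)) (g : V → ℝ) (x y : V) : run L (fun a _ => g a) x y = run1 L g x := by
  induction L generalizing x y with
  | nil => simp
  | cons t L ih => simp only [run_cons, run1_cons, st, st1, ih]

theorem run_snd (L : List (Lz V)) (g : V → ℝ) (x y : V) : run L (fun _ b => g b) x y = run1 L g y := by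
  induction L generalizing x y with
  | nil => simp
  | cons t L ih => simp only [run_cons, run1_cons, st, st1, ih]

theorem run_flip (L : List (Lz V)) (f : V → V → ℝ) (x y : V) :
    run L (fun a b => f b a) x y = run L f y x := by
  induction L generalizing x y with
  | nil => simp
  | cons t L ih => simp only [run_cons, st, ih]

/-- the list moves only points of `A` -/
def On (A : Finset V) (L : List (Lz V)) : Prop := ∀ t ∈ L, t.a ∈ A ∧ t.b ∈ A

omit [DecidableEq V] in
theorem On.append {A : Finset V} {L M : List (Lz V)} (h : On A L) (h' : On A M) : On A (L ++ M) := by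
  intro t ht
  rcases List.mem_append.1 ht with h1 | h1
  · exact h t h1
  · exact h' t h1

theorem swap_mem {A : Finset V} {a b x : V} (ha : a ∈ A) (hb : b ∈ A) (hx : x ∈ A) :
    Equiv.swap a b x ∈ A := by
  rw [Equiv.swap_apply_def]; split_ifs <;> assumption

theorem swap_not_mem {A : Finset V} {a b x : V} (ha : a ∈ A) (hb : b ∈ A) (hx : x ∉ A) :
    Equiv.swap a b x = x :=
  Equiv.swap_apply_of_ne_of_ne (fun h => hx (h ▸ ha)) (fun h => hx (h ▸ hb))

theorem run1_off {A : Finset V} {L : List (Lz V)} (h : On A L) (g : V → ℝ) {x : V} (hx : x ∉ A) :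
    run1 L g x = g x := by
  induction L generalizing x with
  | nil => simp
  | cons t L ih =>
    have h1 := h t (by simp)
    have h2 : On A L := fun t ht => h t (by simp [ht])
    simp only [run1_cons, st1, swap_not_mem h1.1 h1.2 hx, ih h2 hx]; ring

theorem run_off_right {A : Finset V} {L : List (Lz V)} (h : On A L) (f : V → V → ℝ) {x y : V}
    (hy : y ∉ A) : run L f x y = run1 L (fun a => f a y) x := by
  induction L generalizing x with
  | nil => simp
  | cons t L ih =>
    have h1 := h t (by simp)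
    have h2 : On A L := fun t ht => h t (by simp [ht])
    simp only [run1_cons, run_cons, st, st1, swap_not_mem h1.1 h1.2 hy, ih h2]

theorem run_off_left {A : Finset V} {L : List (Lz V)} (h : On A L) (f : V → V → ℝ) {x y : V}
    (hx : x ∉ A) : run L f x y = run1 L (fun b => f x b) y := by
  induction L generalizing y with
  | nil => simp
  | cons t L ih =>
    have h1 := h t (by simp)
    have h2 : On A L := fun t ht => h t (by simp [ht])
    simp only [run1_cons, run_cons, st, st1, swap_not_mem h1.1 h1.2 hx, ih h2]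

theorem run_off {A : Finset V} {L : List (Lz V)} (h : On A L) (f : V → V → ℝ) {x y : V}
    (hx : x ∉ A) (hy : y ∉ A) : run L f x y = f x y := by
  rw [run_off_right h f hy, run1_off h _ hx]

/-- only the values at points of `A` matter for a point of `A` -/
theorem run1_congr {A : Finset V} {L : List (Lz V)} (h : On A L) {g g' : V → ℝ}
    (hg : ∀ a ∈ A, g a = g' a) {x : V} (hx : x ∈ A) : run1 L g x = run1 L g' x := by
  induction L generalizing x with
  | nil => simpa using hg x hx
  | cons t L ih =>
    have h1 := h t (by simp)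
    have h2 : On A L := fun t ht => h t (by simp [ht])
    simp only [run1_cons, st1, ih h2 hx, ih h2 (swap_mem h1.1 h1.2 hx)]

theorem run_congr {L : List (Lz V)} {f f' : V → V → ℝ}
    (hf : ∀ a b, a ≠ b → f a b = f' a b) {x y : V} (hxy : x ≠ y) : run L f x y = run L f' x y := by
  induction L generalizing x y with
  | nil => simpa using hf x y hxy
  | cons t L ih =>
    simp only [run_cons, st, ih hxy, ih (fun h => hxy ((Equiv.swap t.a t.b).injective h))]

theorem run_congr_on {A : Finset V} {L : List (Lz V)} (h : On A L) {f f' : V → V → ℝ}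
    (hf : ∀ a ∈ A, ∀ b ∈ A, a ≠ b → f a b = f' a b) {x y : V} (hx : x ∈ A) (hy : y ∈ A)
    (hxy : x ≠ y) : run L f x y = run L f' x y := by
  induction L generalizing x y with
  | nil => simpa using hf x hx y hy hxy
  | cons t L ih =>
    have h1 := h t (by simp)
    have h2 : On A L := fun t ht => h t (by simp [ht])
    simp only [run_cons, st, ih h2 hx hy hxy, ih h2 (swap_mem h1.1 h1.2 hx) (swap_mem h1.1 h1.2 hy)
      (fun h => hxy ((Equiv.swap t.a t.b).injective h))]

/-- transport along an injection -/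
def Lz.map (e : V ↪ W) (t : Lz V) : Lz W := ⟨e t.a, e t.b, t.p⟩

theorem swap_emb (e : V ↪ W) (a b x : V) :
    Equiv.swap (e a) (e b) (e x) = e (Equiv.swap a b x) := by
  simp only [Equiv.swap_apply_def, e.injective.eq_iff]
  split_ifs <;> rfl

theorem run1_map (e : V ↪ W) (L : List (Lz V)) (g : W → ℝ) (x : V) :
    run1 (L.map (Lz.map e)) g (e x) = run1 L (fun a => g (e a)) x := by
  induction L generalizing x with
  | nil => simp
  | cons t L ih =>
    simp only [List.map_cons, run1_cons, st1, ih]
    simp only [Lz.map, swap_emb, ih]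

theorem run_map (e : V ↪ W) (L : List (Lz V)) (f : W → W → ℝ) (x y : V) :
    run (L.map (Lz.map e)) f (e x) (e y) = run L (fun a b => f (e a) (e b)) x y := by
  induction L generalizing x y with
  | nil => simp
  | cons t L ih =>
    simp only [List.map_cons, run_cons, st, ih]
    simp only [Lz.map, swap_emb, ih]

/-- sums over all pairs are preserved -/
theorem sum_run1 {A : Finset V} {L : List (Lz V)} (h : On A L) (g : V → ℝ) :
    ∑ x ∈ A, run1 L g x = ∑ x ∈ A, g x := by
  induction L with
  | nil => simp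
  | cons t L ih =>
    have h1 := h t (by simp)
    have h2 : On A L := fun t ht => h t (by simp [ht])
    have key : ∑ x ∈ A, run1 L g (Equiv.swap t.a t.b x) = ∑ x ∈ A, run1 L g x := by
      apply Finset.sum_nbij' (Equiv.swap t.a t.b) (Equiv.swap t.a t.b)
      · intro x hx; exact swap_mem h1.1 h1.2 hx
      · intro x hx; exact swap_mem h1.1 h1.2 hx
      · intro x _; simp
      · intro x _; simp
      · intro x _; rfl
    simp only [run1_cons, st1, Finset.sum_add_distrib, ← Finset.mul_sum, key, ih h2]; ring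

theorem sum_run {A : Finset V} {L : List (Lz V)} (h : On A L) (f : V → V → ℝ) :
    ∑ x ∈ A.offDiag, run L f x.1 x.2 = ∑ x ∈ A.offDiag, f x.1 x.2 := by
  induction L with
  | nil => simp
  | cons t L ih =>
    have h1 := h t (by simp)
    have h2 : On A L := fun t ht => h t (by simp [ht])
    have key : ∑ x ∈ A.offDiag, run L f (Equiv.swap t.a t.b x.1) (Equiv.swap t.a t.b x.2)
        = ∑ x ∈ A.offDiag, run L f x.1 x.2 := by
      apply Finset.sum_nbij' (fun x => (Equiv.swap t.a t.b x.1, Equiv.swap t.a t.b x.2))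
        (fun x => (Equiv.swap t.a t.b x.1, Equiv.swap t.a t.b x.2))
      · rintro ⟨x, y⟩ hx
        simp only [mem_offDiag] at hx ⊢
        exact ⟨swap_mem h1.1 h1.2 hx.1, swap_mem h1.1 h1.2 hx.2.1,
          fun h => hx.2.2 ((Equiv.swap t.a t.b).injective h)⟩
      · rintro ⟨x, y⟩ hx
        simp only [mem_offDiag] at hx ⊢
        exact ⟨swap_mem h1.1 h1.2 hx.1, swap_mem h1.1 h1.2 hx.2.1,
          fun h => hx.2.2 ((Equiv.swap t.a t.b).injective h)⟩
      · intro x _; simp
      · intro x _; simp
      · intro x _; rfl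
    simp only [run_cons, st, Finset.sum_add_distrib, ← Finset.mul_sum, key, ih h2]; ring

/-- validity of a lazy transposition -/
def Lz.Ok (t : Lz V) : Prop := t.a ≠ t.b ∧ 0 ≤ t.p ∧ t.p ≤ 1

/-- `L` is a strong 2-shuffle of the set `A` -/
structure Sh (A : Finset V) (L : List (Lz V)) : Prop where
  ok : ∀ t ∈ L, t.Ok
  on : On A L
  one : ∀ g : V → ℝ, ∀ x ∈ A, run1 L g x * (#A : ℝ) = ∑ u ∈ A, g u
  two : ∀ f : V → V → ℝ, ∀ x ∈ A, ∀ y ∈ A, x ≠ y →
    run L f x y * ((#A : ℝ) * ((#A : ℝ) - 1)) = ∑ u ∈ A.offDiag, f u.1 u.2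

/-- constant on pairs is enough -/
theorem Sh.of_const {A : Finset V} {L : List (Lz V)} (hA : 2 ≤ #A) (ok : ∀ t ∈ L, t.Ok)
    (on : On A L)
    (h : ∀ f : V → V → ℝ, ∃ c : ℝ, ∀ x ∈ A, ∀ y ∈ A, x ≠ y → run L f x y = c) : Sh A L := by
  have two : ∀ f : V → V → ℝ, ∀ x ∈ A, ∀ y ∈ A, x ≠ y →
    run L f x y * ((#A : ℝ) * ((#A : ℝ) - 1)) = ∑ u ∈ A.offDiag, f u.1 u.2 := by
    intro f x hx y hy hxy
    obtain ⟨c, hc⟩ := h f
    rw [← sum_run on f, Finset.sum_congr rfl (fun u hu => ?_), Finset.sum_const, offDiag_card,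
      hc x hx y hy hxy, nsmul_eq_mul]
    · have : #A ≤ #A * #A := Nat.le_mul_self _
      push_cast [this]
      ring
    · rw [mem_offDiag] at hu
      exact hc u.1 hu.1 u.2 hu.2.1 hu.2.2
  refine ⟨ok, on, ?_, two⟩
  intro g x hx
  obtain ⟨y, hy, hyx⟩ : ∃ y ∈ A, y ≠ x := by
    by_contra hcon
    push Not at hcon
    have : A ⊆ {x} := fun y hy => by simpa using hcon y hy
    have := Finset.card_le_card this
    simp at this
    omega
  have h1 := two (fun a _ => g a) x hx y hy hyx.symm
  rw [run_fst] at h1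
  have h2 : ∑ u ∈ A.offDiag, g u.1 = (∑ u ∈ A, g u) * ((#A : ℝ) - 1) := by
    have e1 : A.offDiag = (A ×ˢ A).filter (fun u => u.1 ≠ u.2) := by
      ext u; simp [mem_offDiag, and_assoc]
    rw [e1, Finset.sum_filter, Finset.sum_product, Finset.sum_mul]
    apply Finset.sum_congr rfl
    intro u hu
    have e2 : ∀ w ∈ A, (if u ≠ w then g u else 0) = g u - (if u = w then g u else 0) := by
      intro w _; by_cases h : u = w <;> simp [h]
    simp only [Finset.sum_congr rfl e2, Finset.sum_sub_distrib, Finset.sum_const, nsmul_eq_mul,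
      Finset.sum_ite_eq, hu, if_true]
    ring
  rw [h2] at h1
  have h3 : ((#A : ℝ) - 1) ≠ 0 := by
    have : (2 : ℝ) ≤ #A := by exact_mod_cast hA
    linarith
  apply mul_right_cancel₀ h3
  linarith

theorem Sh.run1_eq {A : Finset V} {L : List (Lz V)} (h : Sh A L) (g : V → ℝ) {x : V} (hx : x ∈ A) :
    run1 L g x = (∑ u ∈ A, g u) / #A := by
  have h0 : (#A : ℝ) ≠ 0 := by
    have : 0 < #A := Finset.card_pos.2 ⟨x, hx⟩
    positivity
  rw [eq_div_iff h0]; exact h.one g x hx

theorem Sh.run_eq {A : Finset V} {L : List (Lz V)} (h : Sh A L) (f : V → V → ℝ) {x y : V}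
    (hx : x ∈ A) (hy : y ∈ A) (hxy : x ≠ y) :
    run L f x y = (∑ u ∈ A.offDiag, f u.1 u.2) / ((#A : ℝ) * ((#A : ℝ) - 1)) := by
  have h0 : 2 ≤ #A := Finset.one_lt_card.2 ⟨x, hx, y, hy, hxy⟩
  have h1 : (2 : ℝ) ≤ #A := by exact_mod_cast h0
  rw [eq_div_iff (mul_ne_zero (by linarith) (by linarith))]
  exact h.two f x hx y hy hxy

/-- There is a 2-shuffle of length at most `l` of every set of size `m`. -/
def TB (m l : ℕ) : Prop :=
  ∀ (V : Type) [DecidableEq V] (A : Finset V), #A = m → ∃ L : List (Lz V), L.length ≤ l ∧ Sh A L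

omit [DecidableEq V] [DecidableEq W] in
theorem Lz.Ok.map {t : Lz V} (h : t.Ok) (e : V ↪ W) : (t.map e).Ok :=
  ⟨fun h' => h.1 (e.injective h'), h.2⟩

theorem Sh.map {A : Finset V} {L : List (Lz V)} (h : Sh A L) (e : V ↪ W) :
    Sh (A.map e) (L.map (Lz.map e)) := by
  refine ⟨?_, ?_, ?_, ?_⟩
  · intro t ht
    obtain ⟨s, hs, rfl⟩ := List.mem_map.1 ht
    exact (h.ok s hs).map e
  · intro t ht
    obtain ⟨s, hs, rfl⟩ := List.mem_map.1 ht
    exact ⟨mem_map_of_mem _ (h.on s hs).1, mem_map_of_mem _ (h.on s hs).2⟩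
  · intro g x' hx'
    obtain ⟨x, hx, rfl⟩ := Finset.mem_map.1 hx'
    rw [run1_map, card_map, h.one _ x hx, sum_map]
  · intro f x' hx' y' hy' hxy
    obtain ⟨x, hx, rfl⟩ := Finset.mem_map.1 hx'
    obtain ⟨y, hy, rfl⟩ := Finset.mem_map.1 hy'
    rw [run_map, card_map, h.two _ x hx y hy (fun h' => hxy (by rw [h']))]
    have e1 : (A.map e).offDiag = A.offDiag.map (e.prodMap e) := by
      ext ⟨u, w⟩
      simp only [mem_offDiag, Finset.mem_map, Prod.exists, Function.Embedding.coe_prodMap,
        Prod.map_apply, Prod.mk.injEq]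
      constructor
      · rintro ⟨⟨u, hu, rfl⟩, ⟨w, hw, rfl⟩, hne⟩
        exact ⟨u, w, ⟨hu, hw, fun h' => hne (by rw [h'])⟩, rfl, rfl⟩
      · rintro ⟨u, w, ⟨hu, hw, hne⟩, rfl, rfl⟩
        exact ⟨⟨u, hu, rfl⟩, ⟨w, hw, rfl⟩, fun h' => hne (e.injective h')⟩
    rw [e1, Finset.sum_map]
    rfl

/-- a shuffle of one concrete type gives `TB` -/
theorem TB.of_type {U : Type} [DecidableEq U] [Fintype U] {m l : ℕ} (hm : Fintype.card U = m)
    {L : List (Lz U)} (hl : L.length ≤ l) (h : Sh (univ : Finset U) L) : TB m l := by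
  intro V _ A hA
  have e0 : U ≃ A := Fintype.equivOfCardEq (by simp [hm, hA])
  let e : U ↪ V := e0.toEmbedding.trans (Function.Embedding.subtype _)
  refine ⟨L.map (Lz.map e), by simpa using hl, ?_⟩
  have : (univ : Finset U).map e = A := by
    ext x
    simp only [Finset.mem_map, mem_univ, true_and]
    constructor
    · rintro ⟨u, rfl⟩; exact (e0 u).2
    · intro hx; exact ⟨e0.symm ⟨x, hx⟩, by simp [e]⟩
  rw [← this]
  exact h.map e

theorem TB.mono {m l l' : ℕ} (h : TB m l) (hl : l ≤ l') : TB m l' := by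
  intro V _ A hA
  obtain ⟨L, h1, h2⟩ := h V A hA
  exact ⟨L, h1.trans hl, h2⟩

theorem TB.zero_or_one {m : ℕ} (hm : m ≤ 1) : TB m 0 := by
  intro V _ A hA
  refine ⟨[], le_rfl, by simp, by simp [On], ?_, ?_⟩
  · intro g x hx
    have : A = {x} := by
      apply Finset.eq_singleton_iff_unique_mem.2 ⟨hx, fun y hy => ?_⟩
      exact Finset.card_le_one.1 (by omega) y hy x hx
    subst this
    simp
  · intro f x hx y hy hxy
    exact absurd (Finset.card_le_one.1 (by omega) x hx y hy) hxy

end Pool.Agent.NH92.Shuf
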