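import Pool.Agent.NH92.Shuf.Ext

/-!
The correction on the cross: the effect on functions that depend only on the tree distance.
-/

namespace Pool.Agent.NH92.Shuf

open Finset

namespace Cross

variable {F : Type} [Field F] [DecidableEq F] [Fintype F]

/-- sum over the nonzero elements -/
noncomputable def S (g : F → ℝ) : ℝ := ∑ v, if v = 0 then 0 else g v

theorem sum_split (g : F → ℝ) : ∑ v, g v = g 0 + S g := by
  have : ∀ v, g v = (if v = 0 then g 0 else 0) + (if v = 0 then 0 else g v) := by
    intro v; by_cases h : v = 0 <;> simp [h]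
  rw [Finset.sum_congr rfl (fun v _ => this v), Finset.sum_add_distrib]
  simp [S]

theorem S_comp (g : F → ℝ) (σ : F ≃ F) (h : σ 0 = 0) : S (fun v => g (σ v)) = S g := by
  unfold S
  rw [← Equiv.sum_comp σ (fun v => if v = 0 then 0 else g v)]
  apply Finset.sum_congr rfl
  intro v _
  have : σ v = 0 ↔ v = 0 := by
    constructor
    · intro h'; exact σ.injective (h'.trans h.symm)
    · rintro rfl; exact h
  simp only [this]

theorem S_congr {g g' : F → ℝ} (h : ∀ v, v ≠ 0 → g v = g' v) : S g = S g' := by
  unfold S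
  apply Finset.sum_congr rfl
  intro v _
  by_cases hv : v = 0 <;> simp [hv, h]

theorem S_add (g g' : F → ℝ) : S (fun v => g v + g' v) = S g + S g' := by
  unfold S
  rw [← Finset.sum_add_distrib]
  apply Finset.sum_congr rfl
  intro v _
  by_cases hv : v = 0 <;> simp [hv]

theorem S_sub (g g' : F → ℝ) : S (fun v => g v - g' v) = S g - S g' := by
  unfold S
  rw [← Finset.sum_sub_distrib]
  apply Finset.sum_congr rfl
  intro v _
  by_cases hv : v = 0 <;> simp [hv]

theorem S_mul (c : ℝ) (g : F → ℝ) : S (fun v => c * g v) = c * S g := by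
  unfold S
  rw [Finset.mul_sum]
  apply Finset.sum_congr rfl
  intro v _
  by_cases hv : v = 0 <;> simp [hv]

theorem S_div (c : ℝ) (g : F → ℝ) : S (fun v => g v / c) = S g / c := by
  unfold S
  rw [Finset.sum_div]
  apply Finset.sum_congr rfl
  intro v _
  by_cases hv : v = 0 <;> simp [hv]

theorem S_const (c : ℝ) : S (fun _ : F => c) = ((Fintype.card F : ℝ) - 1) * c := by
  have h := sum_split (fun _ : F => c)
  simp only [sum_const, card_univ, nsmul_eq_mul] at h
  linarith

variable [CharP F 2]

set_option linter.unusedSectionVars false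

theorem add_self (v : F) : v + v = 0 := CharTwo.add_self_eq_zero v

theorem add_eq_zero' {v w : F} : v + w = 0 ↔ v = w := by
  constructor
  · intro h
    have := congrArg (· + w) h
    simpa [add_assoc, add_self] using this
  · rintro rfl; exact add_self _

theorem S_shift (g : F → ℝ) {v : F} (hv : v ≠ 0) :
    S (fun w => if w = v then 0 else g (v + w)) = S g - g v := by
  unfold S
  rw [← Equiv.sum_comp (Equiv.addLeft v)]
  have : ∀ w, (if (Equiv.addLeft v) w = 0 then (0 : ℝ) else
      if (Equiv.addLeft v) w = v then 0 else g (v + (Equiv.addLeft v) w))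
      = (if w = 0 then 0 else g w) - (if w = v then g v else 0) := by
    intro w
    simp only [Equiv.coe_addLeft]
    have h1 : v + (v + w) = w := by rw [← add_assoc, add_self, zero_add]
    have h2 : v + w = 0 ↔ w = v := by rw [add_eq_zero', eq_comm]
    have h3 : v + w = v ↔ w = 0 := by simp
    simp only [h1, h2, h3]
    by_cases hw : w = v
    · subst hw; simp [hv]
    · simp [hw]
  rw [Finset.sum_congr rfl (fun w _ => this w), Finset.sum_sub_distrib]
  simp

omit [CharP F 2] in
theorem S_inv (g : F → ℝ) {d : F} (hd : d ≠ 0) : S (fun z => g (d / z)) = S g := by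
  let σ : F ≃ F := Equiv.ofBijective (fun z => d / z) (by
    rw [Fintype.bijective_iff_injective_and_card]
    refine ⟨?_, rfl⟩
    intro v w h
    simpa [div_eq_mul_inv, hd] using h)
  exact S_comp g σ (by simp [σ])

theorem sq_inj {v w : F} (h : v ^ 2 = w ^ 2) : v = w := by
  have h1 : (v + w) ^ 2 = 0 := by
    rw [CharTwo.add_sq, h, add_self]
  exact add_eq_zero'.1 (by simpa using h1)

theorem S_sq (g : F → ℝ) {d : F} (hd : d ≠ 0) : S (fun v => g (v ^ 2 * d)) = S g := by
  let σ : F ≃ F := Equiv.ofBijective (fun v => v ^ 2 * d) (by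
    rw [Fintype.bijective_iff_injective_and_card]
    refine ⟨?_, rfl⟩
    intro v w h
    exact sq_inj (mul_right_cancel₀ hd h))
  exact S_comp g σ (by simp [σ])

/-- the scaling of the second tree -/
def ga (v : F) : F := if v = 0 then 1 else v ^ 2

/-- a function of the distance in the second tree -/
noncomputable def f0 (g k : F → ℝ) (x y : F × F) : ℝ :=
  if x.2 ≠ y.2 then g (x.2 + y.2) else k (ga x.2 * x.1 + ga x.2 * y.1)

theorem f0_symm (g k : F → ℝ) (x y : F × F) : f0 g k x y = f0 g k y x := by
  unfold f0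
  by_cases h : x.2 = y.2
  · rw [if_neg (by simpa using h), if_neg (by simpa using h.symm), h, add_comm]
  · rw [if_pos h, if_pos (Ne.symm h), add_comm]

def AV (F : Type) [Field F] [DecidableEq F] [Fintype F] : Finset (F × F) :=
  univ.filter (fun x => x.1 = 0 ∧ x.2 ≠ 0)
def AH (F : Type) [Field F] [DecidableEq F] [Fintype F] : Finset (F × F) :=
  univ.filter (fun x => x.2 = 0 ∧ x.1 ≠ 0)

omit [CharP F 2]

theorem mem_AV {x : F × F} : x ∈ AV F ↔ x.1 = 0 ∧ x.2 ≠ 0 := by
  simp only [AV, mem_filter_univ]
theorem mem_AH {x : F × F} : x ∈ AH F ↔ x.2 = 0 ∧ x.1 ≠ 0 := by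
  simp only [AH, mem_filter_univ]

theorem sumAV (G : F × F → ℝ) : ∑ u ∈ AV F, G u = S (fun v => G (0, v)) := by
  rw [AV, Finset.sum_filter, Fintype.sum_prod_type, Finset.sum_eq_single 0]
  · unfold S
    apply Finset.sum_congr rfl
    intro v _
    by_cases hv : v = 0 <;> simp [hv]
  · intro b _ hb
    apply Finset.sum_eq_zero
    intro v _
    simp [hb]
  · intro h; exact absurd (mem_univ _) h

theorem sumAH (G : F × F → ℝ) : ∑ u ∈ AH F, G u = S (fun v => G (v, 0)) := by
  rw [AH, Finset.sum_filter, Fintype.sum_prod_type]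
  unfold S
  apply Finset.sum_congr rfl
  intro z _
  rw [Finset.sum_eq_single 0]
  · by_cases hz : z = 0 <;> simp [hz]
  · intro b _ hb
    simp [hb]
  · intro h; exact absurd (mem_univ _) h

theorem cardAV : (#(AV F) : ℝ) = (Fintype.card F : ℝ) - 1 := by
  have h := sumAV (F := F) (fun _ => 1)
  rw [S_const] at h
  simpa using h

theorem cardAH : (#(AH F) : ℝ) = (Fintype.card F : ℝ) - 1 := by
  have h := sumAH (F := F) (fun _ => 1)
  rw [S_const] at h
  simpa using h

theorem sum_offDiag2 {V : Type*} [DecidableEq V] (A : Finset V) (f : V → V → ℝ) :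
    ∑ u ∈ A.offDiag, f u.1 u.2 = ∑ u ∈ A, ∑ w ∈ A, if w = u then 0 else f u w := by
  have e1 : A.offDiag = (A ×ˢ A).filter (fun u => u.1 ≠ u.2) := by
    ext u; simp [mem_offDiag, and_assoc]
  rw [e1, Finset.sum_filter, Finset.sum_product]
  apply Finset.sum_congr rfl
  intro u hu
  apply Finset.sum_congr rfl
  intro w hw
  by_cases h : u = w
  · simp [h]
  · simp [h, Ne.symm h]

/-- size of the field as a real number -/
noncomputable def qq (F : Type) [Fintype F] : ℝ := (Fintype.card F : ℝ)

theorem qq_ge : 2 ≤ qq F := by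
  unfold qq
  have : 1 < Fintype.card F := Fintype.one_lt_card
  exact_mod_cast this

noncomputable def kap (g k : F → ℝ) (y : F × F) : ℝ :=
  (k (y.2 ^ 2 * y.1) + S g - g y.2) / (qq F - 1)

noncomputable def chi (x : F × F) : ℝ := if x.2 = 0 then 1 else 0

/-- the function after the shuffles of the two lines -/
noncomputable def F1 (g k : F → ℝ) (x y : F × F) : ℝ :=
  if x.1 = 0 ∨ x.2 = 0 then
    (if y.1 = 0 ∨ y.2 = 0 then
      S g / (qq F - 1) + (S k / (qq F - 1) - S g / (qq F - 1)) * (chi x * chi y)
    else kap g k y + (g y.2 - kap g k y) * chi x)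
  else
    (if y.1 = 0 ∨ y.2 = 0 then kap g k x + (g x.2 - kap g k x) * chi y else f0 g k x y)

variable [CharP F 2]

theorem F1_symm (g k : F → ℝ) (x y : F × F) : F1 g k x y = F1 g k y x := by
  unfold F1
  by_cases hx : x.1 = 0 ∨ x.2 = 0 <;> by_cases hy : y.1 = 0 ∨ y.2 = 0
  · simp only [if_pos hx, if_pos hy]; ring
  · simp only [if_pos hx, if_neg hy]
  · simp only [if_neg hx, if_pos hy]
  · simp only [if_neg hx, if_neg hy]; exact f0_symm g k x y

omit [Field F] [DecidableEq F] [Fintype F] [CharP F 2] in
theorem run_symm {V : Type*} [DecidableEq V] (L : List (Lz V)) {f : V → V → ℝ}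
    (hf : ∀ x y, f x y = f y x) (x y : V) : run L f x y = run L f y x := by
  rw [← run_flip]; congr 1; ext a b; exact hf b a

theorem fH1 {LH : List (Lz (F × F))} (hH : Sh (AH F) LH) (g k : F → ℝ) {x y : F × F}
    (hx : x ∈ AH F) (hy : y ∉ AH F) :
    run LH (f0 g k) x y = if y.2 = 0 then S k / (qq F - 1) else g y.2 := by
  have hq := qq_ge (F := F)
  have hq1 : qq F - 1 ≠ 0 := by linarith
  rw [run_off_right hH.on _ hy, hH.run1_eq _ hx, cardAH, sumAH]
  change _ / (qq F - 1) = _
  split_ifs with h
  · have hy0 : y.1 = 0 := by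
      by_contra h'; exact hy (mem_AH.2 ⟨h, h'⟩)
    congr 1
    apply S_congr
    intro z _
    simp [f0, h, hy0, ga]
  · rw [div_eq_iff hq1, mul_comm]
    have : S (fun v => f0 g k (v, 0) y) = S (fun _ : F => g y.2) := by
      apply S_congr
      intro z _
      simp [f0, Ne.symm h]
    rw [this, S_const]; rfl

theorem SS_shift (g : F → ℝ) :
    S (fun v => S (fun w => if w = v then 0 else g (v + w))) = (qq F - 2) * S g := by
  have : S (fun v => S (fun w => if w = v then 0 else g (v + w))) = S (fun v => S g - g v) :=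
    S_congr (fun v hv => S_shift g hv)
  rw [this, S_sub, S_const]
  unfold qq; ring

theorem fH2 {LH : List (Lz (F × F))} (hH : Sh (AH F) LH) (g k : F → ℝ) {x y : F × F}
    (hx : x ∈ AH F) (hy : y ∈ AH F) (hxy : x ≠ y) :
    run LH (f0 g k) x y = S k / (qq F - 1) := by
  have hq := qq_ge (F := F)
  have h0 : 2 ≤ #(AH F) := Finset.one_lt_card.2 ⟨x, hx, y, hy, hxy⟩
  have h1 : (2 : ℝ) ≤ #(AH F) := by exact_mod_cast h0
  have h2 := hH.two (f0 g k) x hx y hy hxy
  rw [cardAH] at h1 h2
  change 2 ≤ qq F - 1 at h1
  change _ * ((qq F - 1) * (qq F - 1 - 1)) = _ at h2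
  rw [sum_offDiag2, sumAH] at h2
  simp only [sumAH] at h2
  have h3 : S (fun v => S (fun w => if ((w, 0) : F × F) = (v, 0) then 0 else f0 g k (v, 0) (w, 0)))
      = (qq F - 2) * S k := by
    rw [← SS_shift k]
    congr 1; ext v; congr 1; ext w
    simp [f0, ga]
  rw [h3] at h2
  rw [eq_div_iff (by linarith)]
  have h4 : (run LH (f0 g k) x y * (qq F - 1)) * (qq F - 2) = S k * (qq F - 2) := by
    linarith
  exact mul_right_cancel₀ (by linarith) h4

theorem f1_eq {LV LH : List (Lz (F × F))} (hV : Sh (AV F) LV) (hH : Sh (AH F) LH) (g k : F → ℝ)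
    {x y : F × F} (hxy : x ≠ y) : run (LV ++ LH) (f0 g k) x y = F1 g k x y := by
  have hq := qq_ge (F := F)
  have hq1 : qq F - 1 ≠ 0 := by linarith
  set f' := run LH (f0 g k) with hf'
  have f'_symm : ∀ x y, f' x y = f' y x := run_symm LH (f0_symm g k)
  have f1_symm : ∀ x y, run (LV ++ LH) (f0 g k) x y = run (LV ++ LH) (f0 g k) y x :=
    run_symm _ (f0_symm g k)
  -- one point on the vertical line
  have one : ∀ x ∈ AV F, ∀ y ∉ AV F, run (LV ++ LH) (f0 g k) x y = F1 g k x y := by
    intro x hx y hy
    rw [run_append, ← hf', run_off_right hV.on _ hy, hV.run1_eq _ hx, cardAV, sumAV]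
    change _ / (qq F - 1) = _
    rw [mem_AV] at hx hy
    obtain ⟨z, v⟩ := y
    simp only at hy
    unfold F1
    rw [if_pos (Or.inl hx.1)]
    have hchi : chi x = 0 := by simp [chi, hx.2]
    rw [hchi]
    by_cases hyH : ((z, v) : F × F) ∈ AH F
    · have h1 : S (fun w => f' (0, w) (z, v)) = S g := by
        apply S_congr
        intro w hw
        rw [f'_symm, hf', fH1 hH g k hyH (by simp [mem_AH, hw]), if_neg hw]
      rw [h1, if_pos (Or.inr (mem_AH.1 hyH).1)]; ring
    · have h2 : ∀ w, w ≠ 0 → f' (0, w) (z, v) = f0 g k (0, w) (z, v) := by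
        intro w hw
        rw [hf', run_off hH.on _ (by simp [mem_AH, hw]) hyH]
      rw [mem_AH] at hyH
      simp only at hyH
      by_cases hv : v = 0
      · subst hv
        have hz : z = 0 := by by_contra h; exact hyH ⟨rfl, h⟩
        subst hz
        have h1 : S (fun w => f' (0, w) (0, 0)) = S g := by
          apply S_congr
          intro w hw
          rw [h2 w hw]
          simp [f0, hw]
        rw [h1]; simp
      · have hz : z ≠ 0 := by intro h; exact hy ⟨h, hv⟩
        rw [if_neg (by simp [hz, hv])]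
        have h1 : S (fun w => f' (0, w) (z, v))
            = S (fun w => (if w = v then 0 else g (v + w)) + (if w = v then k (v ^ 2 * z) else 0)) := by
          apply S_congr
          intro w hw
          rw [h2 w hw]
          by_cases hwv : w = v
          · subst hwv; simp [f0, ga, hw]
          · simp [f0, hwv, add_comm]
        rw [h1, S_add, S_shift g hv]
        have h3 : S (fun w => if w = v then k (v ^ 2 * z) else 0) = k (v ^ 2 * z) := by
          unfold S
          rw [Finset.sum_eq_single v]
          · simp [hv]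
          · intro b _ hb; simp [hb]
          · intro h; exact absurd (mem_univ _) h
        rw [h3]
        simp only [kap]; ring
  by_cases hx : x ∈ AV F
  · by_cases hy : y ∈ AV F
    · have h0 : 2 ≤ #(AV F) := Finset.one_lt_card.2 ⟨x, hx, y, hy, hxy⟩
      have h1 : (2 : ℝ) ≤ #(AV F) := by exact_mod_cast h0
      have h2 := hV.two f' x hx y hy hxy
      rw [cardAV] at h1 h2
      change 2 ≤ qq F - 1 at h1
      change _ * ((qq F - 1) * (qq F - 1 - 1)) = _ at h2
      rw [sum_offDiag2, sumAV] at h2
      simp only [sumAV] at h2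
      have h3 : S (fun v => S (fun w => if ((0, w) : F × F) = (0, v) then 0 else f' (0, v) (0, w)))
          = (qq F - 2) * S g := by
        rw [← SS_shift g]
        apply S_congr; intro v hv
        apply S_congr; intro w hw
        rw [hf', run_off hH.on _ (by simp [mem_AH, hv]) (by simp [mem_AH, hw])]
        by_cases hwv : w = v
        · simp [hwv]
        · simp [f0, hwv, Ne.symm hwv]
      rw [h3] at h2
      rw [mem_AV] at hx hy
      have e1 : F1 g k x y = S g / (qq F - 1) := by
        unfold F1
        rw [if_pos (Or.inl hx.1), if_pos (Or.inl hy.1)]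
        simp [chi, hx.2]
      rw [run_append, ← hf', e1, eq_div_iff (by linarith)]
      have h4 : (run LV f' x y * (qq F - 1)) * (qq F - 2) = S g * (qq F - 2) := by
        linarith
      exact mul_right_cancel₀ (by linarith) h4
    · exact one x hx y hy
  · by_cases hy : y ∈ AV F
    · rw [f1_symm, F1_symm]; exact one y hy x hx
    · rw [run_append, ← hf', run_off hV.on _ hx hy]
      -- both outside the vertical line
      have two : ∀ x ∉ AV F, ∀ y ∉ AV F, x ∈ AH F → y ∉ AH F → f' x y = F1 g k x y := by
        intro x hx y hy hxH hyH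
        rw [hf', fH1 hH g k hxH hyH]
        unfold F1
        rw [mem_AH] at hxH
        rw [if_pos (Or.inr hxH.1)]
        have hchi : chi x = 1 := by simp [chi, hxH.1]
        rw [hchi]
        by_cases hy2 : y.2 = 0
        · rw [if_pos hy2, if_pos (Or.inr hy2)]
          simp [chi, hy2]
        · have hy1 : y.1 ≠ 0 := fun h => hy (mem_AV.2 ⟨h, hy2⟩)
          rw [if_neg hy2, if_neg (by simp [hy1, hy2])]
          ring
      by_cases hxH : x ∈ AH F
      · by_cases hyH : y ∈ AH F
        · rw [hf', fH2 hH g k hxH hyH hxy]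
          rw [mem_AH] at hxH hyH
          unfold F1
          rw [if_pos (Or.inr hxH.1), if_pos (Or.inr hyH.1)]
          simp [chi, hxH.1, hyH.1]
        · exact two x hx y hy hxH hyH
      · by_cases hyH : y ∈ AH F
        · rw [f'_symm, F1_symm]; exact two y hy x hx hyH hxH
        · rw [hf', run_off hH.on _ hxH hyH]
          have cl : ∀ x : F × F, x ∉ AV F → x ∉ AH F → x = (0, 0) ∨ (x.1 ≠ 0 ∧ x.2 ≠ 0) := by
            intro x hx hx'
            rw [mem_AV] at hx
            rw [mem_AH] at hx'
            by_cases h1 : x.1 = 0 <;> by_cases h2 : x.2 = 0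
            · left; exact Prod.ext h1 h2
            · exact absurd ⟨h1, h2⟩ hx
            · exact absurd ⟨h2, h1⟩ hx'
            · right; exact ⟨h1, h2⟩
          have three : ∀ y : F × F, y.1 ≠ 0 ∧ y.2 ≠ 0 → f0 g k (0, 0) y = F1 g k (0, 0) y := by
            intro y hy
            unfold F1
            rw [if_pos (Or.inl rfl), if_neg (by simp [hy.1, hy.2])]
            simp [chi, f0, Ne.symm hy.2]
          rcases cl x hx hxH with rfl | hx'
          · rcases cl y hy hyH with rfl | hy'
            · exact absurd rfl hxy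
            · exact three y hy'
          · rcases cl y hy hyH with rfl | hy'
            · rw [f0_symm, F1_symm]; exact three x hx'
            · unfold F1
              rw [if_neg (by simp [hx'.1, hx'.2]), if_neg (by simp [hy'.1, hy'.2])]

end Cross

end Pool.Agent.NH92.Shuf
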