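import Pool.Agent.NH92.Shuf.Cross

/-!
The lazy exchange of the two lines of the cross, and the class sums.
-/

namespace Pool.Agent.NH92.Shuf

open Finset

namespace Cross

variable {F : Type} [Field F] [DecidableEq F] [Fintype F] [CharP F 2]

set_option linter.unusedSectionVars false

/-- exchange of the two lines -/
def tau (x : F × F) : F × F := if x.1 = 0 ∨ x.2 = 0 then (x.2, x.1) else x

theorem tau_tau (x : F × F) : tau (tau x) = x := by
  unfold tau
  by_cases h : x.1 = 0 ∨ x.2 = 0
  · simp only [if_pos h, if_pos h.symm]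
  · simp only [if_neg h]

noncomputable def RC (F : Type) [Field F] [DecidableEq F] [Fintype F] : List (F × F) :=
  ((univ : Finset F).filter (fun u => u ≠ 0)).toList.map (fun u => (0, u))

theorem mem_RC (x : F × F) : x ∈ RC F ↔ x.1 = 0 ∧ x.2 ≠ 0 := by
  simp only [RC, List.mem_map, Finset.mem_toList, mem_filter_univ]
  constructor
  · rintro ⟨u, h, rfl⟩; exact ⟨rfl, h⟩
  · rintro ⟨h1, h2⟩; exact ⟨x.2, h2, Prod.ext h1.symm rfl⟩

theorem RC_nodup : (RC F).Nodup := by
  unfold RC
  apply List.Nodup.map
  · intro i j h; simpa using h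
  · exact Finset.nodup_toList _

theorem RC_tau (x : F × F) (hx : x ∈ RC F) : tau x ∉ RC F := by
  rw [mem_RC] at hx ⊢
  unfold tau
  rw [if_pos (Or.inl hx.1)]
  simp [hx.1]

noncomputable def Lam (F : Type) [Field F] [DecidableEq F] [Fintype F] (p : ℝ) :
    List (Lz (F × F)) := (RC F).map (mk tau (fun _ => p))

theorem tp_O (p : ℝ) : tp tau (fun _ => p) (RC F) (0, 0) = 0 := by
  unfold tp; rw [if_neg]; rw [mem_RC, mem_RC]; simp [tau]

theorem tp_V (p : ℝ) {v : F} (hv : v ≠ 0) : tp tau (fun _ => p) (RC F) (0, v) = p := by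
  unfold tp; rw [if_pos]; left; rw [mem_RC]; exact ⟨rfl, hv⟩

theorem tp_H (p : ℝ) {v : F} (hv : v ≠ 0) : tp tau (fun _ => p) (RC F) (v, 0) = p := by
  unfold tp; rw [if_pos]; right; rw [mem_RC]; simp [tau, hv]

theorem tp_G (p : ℝ) {x : F × F} (h1 : x.1 ≠ 0) (h2 : x.2 ≠ 0) :
    tp tau (fun _ => p) (RC F) x = 0 := by
  unfold tp; rw [if_neg]; rw [mem_RC, mem_RC]; simp [tau, h1, h2]

/-- the probability of ending on the horizontal line -/
noncomputable def cc (p : ℝ) (x : F × F) : ℝ :=
  if x.2 = 0 then (if x.1 = 0 then 1 else 1 - p) else p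

theorem cc_eq (p : ℝ) {x : F × F} (hx : x.1 = 0 ∨ x.2 = 0) :
    (1 - tp tau (fun _ => p) (RC F) x) * chi x + tp tau (fun _ => p) (RC F) x * chi (tau x)
      = cc p x := by
  obtain ⟨z, v⟩ := x
  simp only at hx
  by_cases h1 : z = 0 <;> by_cases h2 : v = 0
  · subst h1; subst h2; rw [tp_O]; simp [chi, cc, tau]
  · subst h1; rw [tp_V p h2]; simp [chi, cc, tau, h2]
  · subst h2; rw [tp_H p h1]; simp [chi, cc, tau, h1]
  · exact absurd hx (by simp [h1, h2])

theorem tau_cross {x : F × F} (hx : x.1 = 0 ∨ x.2 = 0) : (tau x).1 = 0 ∨ (tau x).2 = 0 := by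
  unfold tau; rw [if_pos hx]; exact hx.symm

/-- the function after the exchange -/
noncomputable def HH (p : ℝ) (g k : F → ℝ) (x y : F × F) : ℝ :=
  if x.1 = 0 ∨ x.2 = 0 then
    (if y.1 = 0 ∨ y.2 = 0 then
      S g / (qq F - 1) + (if y = tau x then 0 else
        (S k / (qq F - 1) - S g / (qq F - 1)) * (cc p x * cc p y))
    else kap g k y + (g y.2 - kap g k y) * cc p x)
  else
    (if y.1 = 0 ∨ y.2 = 0 then kap g k x + (g x.2 - kap g k x) * cc p y else f0 g k x y)

theorem HH_symm (p : ℝ) (g k : F → ℝ) (x y : F × F) : HH p g k x y = HH p g k y x := by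
  unfold HH
  have h : y = tau x ↔ x = tau y := by
    constructor
    · rintro rfl; rw [tau_tau]
    · rintro rfl; rw [tau_tau]
  by_cases hx : x.1 = 0 ∨ x.2 = 0 <;> by_cases hy : y.1 = 0 ∨ y.2 = 0
  · simp only [if_pos hx, if_pos hy, h, mul_comm (cc p x)]
  · simp only [if_pos hx, if_neg hy]
  · simp only [if_neg hx, if_pos hy]
  · simp only [if_neg hx, if_neg hy]; exact f0_symm g k x y

theorem lam_eq (p : ℝ) (g k : F → ℝ) {x y : F × F} (hxy : x ≠ y) :
    run (Lam F p) (F1 g k) x y = HH p g k x y := by
  have one : ∀ x y : F × F, (x.1 = 0 ∨ x.2 = 0) → ¬ (y.1 = 0 ∨ y.2 = 0) →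
      run (Lam F p) (F1 g k) x y = HH p g k x y := by
    intro x y hx hy
    have hxy : x ≠ y := fun h => hy (h ▸ hx)
    have hne : y ≠ tau x := fun h => hy (h ▸ tau_cross hx)
    have hy1 : y.1 ≠ 0 ∧ y.2 ≠ 0 := by
      constructor
      · exact fun h => hy (Or.inl h)
      · exact fun h => hy (Or.inr h)
    rw [Lam, match2 tau_tau (fun _ => rfl) RC_nodup RC_tau _ hxy, if_neg hne, tp_G p hy1.1 hy1.2]
    unfold F1 HH
    simp only [if_pos hx, if_pos (tau_cross hx), if_neg hy]
    rw [← cc_eq p hx]; ring
  by_cases hx : x.1 = 0 ∨ x.2 = 0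
  · by_cases hy : y.1 = 0 ∨ y.2 = 0
    · rw [Lam, match2 tau_tau (fun _ => rfl) RC_nodup RC_tau _ hxy]
      unfold F1 HH
      simp only [if_pos hx, if_pos (tau_cross hx), if_pos hy, if_pos (tau_cross hy)]
      split_ifs with h
      · subst h
        have : chi x * chi (tau x) = 0 := by
          obtain ⟨z, v⟩ := x
          simp only at hx
          by_cases h1 : z = 0 <;> by_cases h2 : v = 0
          · subst h1; subst h2; exact absurd (by simp [tau]) hxy
          · subst h1; simp [chi, tau, h2]
          · subst h2; simp [chi, tau, h1]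
          · exact absurd hx (by simp [h1, h2])
        have h' : chi (tau x) * chi x = 0 := by rw [mul_comm]; exact this
        rw [this, h']; ring
      · rw [← cc_eq p hx, ← cc_eq p hy]; ring
    · exact one x y hx hy
  · by_cases hy : y.1 = 0 ∨ y.2 = 0
    · rw [run_symm _ (F1_symm g k), HH_symm]; exact one y x hy hx
    · have hx1 : x.1 ≠ 0 ∧ x.2 ≠ 0 := by
        constructor
        · exact fun h => hx (Or.inl h)
        · exact fun h => hx (Or.inr h)
      have hy1 : y.1 ≠ 0 ∧ y.2 ≠ 0 := by
        constructor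
        · exact fun h => hy (Or.inl h)
        · exact fun h => hy (Or.inr h)
      have ht : tau x = x := by unfold tau; rw [if_neg hx]
      rw [Lam, match2 tau_tau (fun _ => rfl) RC_nodup RC_tau _ hxy, if_neg (by
        rw [ht]; exact hxy.symm), tp_G p hx1.1 hx1.2, tp_G p hy1.1 hy1.2]
      unfold F1 HH
      simp only [if_neg hx, if_neg hy]
      ring

/-- first scaling -/
def gb (z : F) : F := if z = 0 then 1 else z

/-- sum over an inner class of the first tree -/
theorem inner_sum (p : ℝ) (g k : F → ℝ) {d : F} (hd : d ≠ 0)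
    (hp : (qq F - 2) * p ^ 2 + 4 * p = qq F ^ 2 / (qq F + 1)) :
    ∑ z, ∑ v, HH p g k (z, v) (z, v + d / gb z)
      = (S g / (qq F - 1) + (S k / (qq F - 1) - S g / (qq F - 1)) / (qq F + 1)) * qq F ^ 2 := by
  have hq := qq_ge (F := F)
  have hq1 : qq F - 1 ≠ 0 := by linarith
  have hq2 : qq F + 1 ≠ 0 := by linarith
  rw [sum_split]
  -- the column z = 0
  have col0 : ∑ v, HH p g k (0, v) (0, v + d / gb 0)
      = qq F * (S g / (qq F - 1)) + (S k / (qq F - 1) - S g / (qq F - 1))
        * ((qq F - 2) * p ^ 2 + 2 * p) := by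
    have e1 : ∀ v : F, HH p g k (0, v) (0, v + d / gb 0)
        = S g / (qq F - 1) + (S k / (qq F - 1) - S g / (qq F - 1)) *
          (p ^ 2 + (if v = 0 then p - p ^ 2 else 0) + (if v = d then p - p ^ 2 else 0)) := by
      intro v
      unfold HH
      rw [if_pos (Or.inl rfl), if_pos (Or.inl rfl)]
      have hgb : d / gb (0 : F) = d := by simp [gb]
      rw [hgb, if_neg]
      · by_cases h1 : v = 0
        · subst h1; simp [cc, hd, Ne.symm hd]
        · by_cases h2 : v = d
          · subst h2; simp [cc, hd, add_self]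
          · have h3 : v + d ≠ 0 := fun h => h2 (add_eq_zero'.1 h)
            simp only [cc, h1, h2, h3, if_false]; ring
      · simp only [tau, true_or, if_true]
        intro h
        have h4 := Prod.ext_iff.1 h
        simp only at h4
        rw [← h4.1, zero_add] at h4
        exact hd h4.2
    simp only [e1]
    rw [Finset.sum_add_distrib, ← Finset.mul_sum, Finset.sum_add_distrib, Finset.sum_add_distrib]
    simp only [sum_const, card_univ, nsmul_eq_mul, Finset.sum_ite_eq', mem_univ, if_true]
    change qq F * _ + _ * (qq F * _ + _ + _) = _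
    ring
  have colz : ∀ z : F, z ≠ 0 → ∑ v, HH p g k (z, v) (z, v + d / gb z)
      = qq F * g (d / z) + 2 * p * ((k (d ^ 2 / z) + S g - g (d / z)) / (qq F - 1) - g (d / z)) := by
    intro z hz
    have hgb : gb z = z := by simp [gb, hz]
    rw [hgb]
    have hdz : d / z ≠ 0 := div_ne_zero hd hz
    have hkap : kap g k (z, d / z) = (k (d ^ 2 / z) + S g - g (d / z)) / (qq F - 1) := by
      unfold kap
      have : (d / z) ^ 2 * z = d ^ 2 / z := by field_simp
      simp only [this]
    have e1 : ∀ v : F, HH p g k (z, v) (z, v + d / z)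
        = g (d / z) + (if v = 0 then p * (kap g k (z, d / z) - g (d / z)) else 0)
          + (if v = d / z then p * (kap g k (z, d / z) - g (d / z)) else 0) := by
      intro v
      unfold HH
      by_cases h1 : v = 0
      · subst h1
        rw [if_pos (Or.inr rfl), if_neg (by simp [hz, hd])]
        simp only [zero_add, cc, hz, if_true, if_false, Ne.symm hdz]
        ring
      · by_cases h2 : v = d / z
        · subst h2
          rw [if_neg (by simp [hz, hd]), if_pos (Or.inr (by simp [add_self]))]
          simp only [add_self, cc, hz, if_true, if_false, h1]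
          ring
        · have h3 : v + d / z ≠ 0 := fun h => h2 (add_eq_zero'.1 h)
          rw [if_neg (by simp [hz, h1]), if_neg (by simp only [hz, h3, or_self, not_false_eq_true])]
          have h4 : v ≠ v + d / z := fun h => hdz (by simpa using h.symm)
          simp only [f0, h1, h2, if_false]
          rw [if_pos h4]
          have h5 : v + (v + d / z) = d / z := by rw [← add_assoc, add_self, zero_add]
          rw [h5]; ring
    simp only [e1]
    rw [Finset.sum_add_distrib, Finset.sum_add_distrib]
    simp only [sum_const, card_univ, nsmul_eq_mul, Finset.sum_ite_eq', mem_univ, if_true]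
    rw [hkap]
    change qq F * _ + _ + _ = _
    ring
  have cols : S (fun z => ∑ v, HH p g k (z, v) (z, v + d / gb z))
      = qq F * S g + 2 * p * ((S k + (qq F - 1) * S g - S g) / (qq F - 1) - S g) := by
    rw [S_congr (g' := fun z => qq F * g (d / z)
      + 2 * p * ((k (d ^ 2 / z) + S g - g (d / z)) / (qq F - 1) - g (d / z))) colz]
    rw [S_add, S_mul, S_mul, S_sub, S_div, S_sub, S_add, S_const, S_inv g hd,
      S_inv k (pow_ne_zero 2 hd)]
    rfl
  rw [col0, cols]
  have hSg : S g = (qq F - 1) * (S g / (qq F - 1)) := by field_simp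
  have hSk : S k = (qq F - 1) * (S k / (qq F - 1)) := by field_simp
  set a := S g / (qq F - 1)
  set b := S k / (qq F - 1)
  rw [hSg, hSk]
  have e5 : ((qq F - 1) * b + (qq F - 1) * ((qq F - 1) * a) - (qq F - 1) * a) / (qq F - 1)
      = b + (qq F - 2) * a := by field_simp; ring
  rw [e5]
  have e6 : (a + (b - a) / (qq F + 1)) * qq F ^ 2
      = a * qq F ^ 2 + (b - a) * (qq F ^ 2 / (qq F + 1)) := by ring
  rw [e6, ← hp]; ring

/-- the sum of `kap` over a column -/
theorem kap_sum (g k : F → ℝ) {z : F} (hz : z ≠ 0) :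
    S (fun v => kap g k (z, v)) = (S k + (qq F - 2) * S g) / (qq F - 1) := by
  unfold kap
  simp only
  rw [S_div, S_sub, S_add, S_const, S_sq k hz]
  congr 1
  unfold qq; ring

/-- sum over an outer class of the first tree -/
theorem outer_sum (p : ℝ) (g k : F → ℝ) {d : F} (hd : d ≠ 0)
    (hp : (qq F - 2) * p ^ 2 + 4 * p = qq F ^ 2 / (qq F + 1)) :
    ∑ z, ∑ v, ∑ v', HH p g k (z, v) (z + d, v')
      = (S g / (qq F - 1) + (S k / (qq F - 1) - S g / (qq F - 1)) / (qq F + 1)) * qq F ^ 3 := by
  have hq := qq_ge (F := F)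
  have hq1 : qq F - 1 ≠ 0 := by linarith
  have hq2 : qq F + 1 ≠ 0 := by linarith
  set a := S g / (qq F - 1) with ha
  set b := S k / (qq F - 1) with hb
  have hSg : S g = (qq F - 1) * a := by rw [ha]; field_simp
  have hSk : S k = (qq F - 1) * b := by rw [hb]; field_simp
  have hK : ∀ z : F, z ≠ 0 → S (fun v => kap g k (z, v)) = b + (qq F - 2) * a := by
    intro z hz
    rw [kap_sum g k hz, hSg, hSk]; field_simp
  -- the special columns
  have spec : ∑ v, ∑ v', HH p g k (0, v) (d, v')
      = (qq F * a + (b - a) * (1 - p) * (1 + (qq F - 2) * p))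
        + ((qq F - 1) * (1 - p) * (b + (qq F - 2) * a) + (1 + (qq F - 1) * p) * ((qq F - 1) * a)) := by
    rw [Finset.sum_comm, sum_split]
    congr 1
    · have e1 : ∀ v : F, HH p g k (0, v) (d, 0)
          = a + (b - a) * (1 - p) * (p + (if v = 0 then 1 - p else 0) + (if v = d then - p else 0)) := by
        intro v
        unfold HH
        rw [if_pos (Or.inl rfl), if_pos (Or.inr rfl), ← ha, ← hb]
        by_cases h1 : v = 0
        · subst h1
          simp only [tau, or_true, if_true, Prod.mk.injEq, hd, false_and, if_false, cc,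
            Ne.symm hd]
          ring
        · by_cases h2 : v = d
          · subst h2
            simp [tau, cc, hd]
          · simp only [tau, true_or, if_true, Prod.mk.injEq, and_true, Ne.symm h2, if_false, cc, h1,
              h2, hd]
            ring
      simp only [e1]
      rw [Finset.sum_add_distrib, ← Finset.mul_sum, Finset.sum_add_distrib, Finset.sum_add_distrib]
      simp only [sum_const, card_univ, nsmul_eq_mul, Finset.sum_ite_eq', mem_univ, if_true]
      change qq F * _ + _ * (qq F * _ + _ + _) = _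
      ring
    · have e1 : ∀ v' : F, v' ≠ 0 → ∑ v, HH p g k (0, v) (d, v')
          = (qq F - 1) * (1 - p) * kap g k (d, v') + (1 + (qq F - 1) * p) * g v' := by
        intro v' hv'
        have e2 : ∀ v : F, HH p g k (0, v) (d, v')
            = kap g k (d, v') + (g v' - kap g k (d, v')) * (p + (if v = 0 then 1 - p else 0)) := by
          intro v
          unfold HH
          rw [if_pos (Or.inl rfl), if_neg (by simp [hd, hv'])]
          by_cases h1 : v = 0
          · subst h1; simp [cc]
          · simp [cc, h1]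
        simp only [e2]
        rw [Finset.sum_add_distrib, ← Finset.mul_sum, Finset.sum_add_distrib]
        simp only [sum_const, card_univ, nsmul_eq_mul, Finset.sum_ite_eq', mem_univ, if_true]
        change qq F * _ + _ * (qq F * _ + _) = _
        ring
      rw [S_congr e1, S_add, S_mul, S_mul, hK d hd, hSg]
  have spec' : ∑ v, ∑ v', HH p g k (d, v) (0, v') = ∑ v, ∑ v', HH p g k (0, v) (d, v') := by
    rw [Finset.sum_comm]
    apply Finset.sum_congr rfl; intro v _
    apply Finset.sum_congr rfl; intro v' _
    exact HH_symm _ _ _ _ _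
  have gen : ∀ z : F, z ≠ 0 → z ≠ d → ∑ v, ∑ v', HH p g k (z, v) (z + d, v')
      = (a + (b - a) * (1 - p) ^ 2) + 2 * (p * (b + (qq F - 2) * a) + (1 - p) * ((qq F - 1) * a))
        + ((qq F - 2) * ((qq F - 1) * a) + (qq F - 1) * b) := by
    intro z hz hzd
    have hz' : z + d ≠ 0 := fun h => hzd (add_eq_zero'.1 h)
    rw [sum_split]
    -- the row v = 0
    have r0 : ∑ v', HH p g k (z, 0) (z + d, v')
        = (a + (b - a) * (1 - p) ^ 2) + (p * (b + (qq F - 2) * a) + (1 - p) * ((qq F - 1) * a)) := by
      rw [sum_split]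
      congr 1
      · unfold HH
        rw [if_pos (Or.inr rfl), if_pos (Or.inr rfl), ← ha, ← hb, if_neg]
        · simp only [cc, if_true, hz, hz', if_false]; ring
        · simp [tau, hz']
      · have e1 : ∀ v' : F, v' ≠ 0 → HH p g k (z, 0) (z + d, v')
            = p * kap g k (z + d, v') + (1 - p) * g v' := by
          intro v' hv'
          unfold HH
          rw [if_pos (Or.inr rfl), if_neg (by simp [hz', hv'])]
          simp only [cc, if_true, hz, if_false]; ring
        rw [S_congr e1, S_add, S_mul, S_mul, hK _ hz', hSg]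
    have r1 : ∀ v : F, v ≠ 0 → ∑ v', HH p g k (z, v) (z + d, v')
        = (p * kap g k (z, v) + (1 - p) * g v) + ((S g - g v) + k (v ^ 2 * d)) := by
      intro v hv
      rw [sum_split]
      congr 1
      · unfold HH
        rw [if_neg (by simp [hz, hv]), if_pos (Or.inr rfl)]
        simp only [cc, if_true, hz', if_false]; ring
      · have e1 : ∀ v' : F, v' ≠ 0 → HH p g k (z, v) (z + d, v')
            = (if v' = v then 0 else g (v + v')) + (if v' = v then k (v ^ 2 * d) else 0) := by
          intro v' hv'
          unfold HH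
          rw [if_neg (by simp [hz, hv]), if_neg (by simp [hz', hv'])]
          unfold f0
          by_cases h : v' = v
          · subst h
            have h6 : ga v' * z + ga v' * (z + d) = v' ^ 2 * d := by
              rw [← mul_add, ← add_assoc, add_self, zero_add]
              simp [ga, hv]
            simp only [ne_eq, not_true_eq_false, if_false, if_true, h6, zero_add]
          · simp only [ne_eq, Ne.symm h, not_false_eq_true, if_true, h, if_false, add_zero]
        rw [S_congr e1, S_add, S_shift g hv]
        congr 1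
        unfold S
        rw [Finset.sum_eq_single v]
        · simp [hv]
        · intro w _ hw; simp [hw]
        · intro h; exact absurd (mem_univ _) h
    rw [r0, S_congr r1, S_add, S_add, S_add, S_sub, S_mul, S_mul, S_const, S_sq k hd, hK z hz, hSg, hSk]
    change _ + (_ + (((qq F - 1) * _ - _) + _)) = _
    ring
  -- assemble
  set X := ∑ v, ∑ v', HH p g k (0, v) (d, v') with hX
  set M := (a + (b - a) * (1 - p) ^ 2) + 2 * (p * (b + (qq F - 2) * a) + (1 - p) * ((qq F - 1) * a))
        + ((qq F - 2) * ((qq F - 1) * a) + (qq F - 1) * b) with hM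
  have tot : ∀ z : F, ∑ v, ∑ v', HH p g k (z, v) (z + d, v')
      = M + (if z = 0 then X - M else 0) + (if z = d then X - M else 0) := by
    intro z
    by_cases h1 : z = 0
    · subst h1
      simp only [zero_add, if_true, Ne.symm hd, if_false, add_zero]
      ring
    · by_cases h2 : z = d
      · subst h2
        simp only [add_self, if_true, h1, if_false, add_zero]
        rw [spec']; ring
      · simp only [h1, h2, if_false, add_zero]
        exact gen z h1 h2
  simp only [tot]
  rw [Finset.sum_add_distrib, Finset.sum_add_distrib]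
  simp only [sum_const, card_univ, nsmul_eq_mul, Finset.sum_ite_eq', mem_univ, if_true]
  change qq F * M + (X - M) + (X - M) = _
  have e6 : (a + (b - a) / (qq F + 1)) * qq F ^ 3
      = a * qq F ^ 3 + (b - a) * qq F * (qq F ^ 2 / (qq F + 1)) := by ring
  rw [e6, ← hp, spec, hM]
  have h7 : qq F ^ 2 / (qq F + 1) * (qq F + 1) = qq F ^ 2 := by field_simp
  rw [← hp] at h7
  linear_combination (a - b) * h7

end Cross

end Pool.Agent.NH92.Shuf
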