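import Mathlib

/-!
Probabilities with prescribed first and second power sums.
-/

namespace Pool.Agent.NH92.Shuf

open Finset

theorem sum_step (s h : ℕ) (hh : h < s) (a b : ℝ) :
    ∑ i : Fin s, (if (i : ℕ) < h then a else if (i : ℕ) = h then b else 0) = h * a + b := by
  rw [Fin.sum_univ_eq_sum_range (fun i => if i < h then a else if i = h then b else 0) s]
  have e : ∀ i ∈ range s, (if i < h then a else if i = h then b else 0)
      = (if i < h then a else 0) + (if i = h then b else 0) := by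
    intro i _
    rcases lt_trichotomy i h with h1 | h1 | h1
    · simp [h1, h1.ne]
    · simp [h1]
    · simp [h1.not_gt, h1.ne']
  rw [Finset.sum_congr rfl e, Finset.sum_add_distrib, Finset.sum_ite_eq' (range s) h,
    if_pos (mem_range.2 hh), ← Finset.sum_filter]
  have e2 : (range s).filter (fun i => i < h) = range h := by
    ext i; simp only [mem_filter, mem_range]; omega
  rw [e2]; simp

theorem exists_p (s n : ℕ) (hn : 1 ≤ n) (hs : s ≤ n) (m : ℝ) (hm : m = n + s) :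
    ∃ p : Fin s → ℝ, (∀ i, 0 ≤ p i ∧ p i ≤ 1) ∧ ∑ i, p i = (s : ℝ) ^ 2 / m ∧
      ∑ i, p i ^ 2 = (s : ℝ) ^ 4 / m ^ 2 - (s : ℝ) ^ 2 * (s - 1) ^ 2 / (m * (m - 1)) := by
  rcases Nat.eq_zero_or_pos s with h0 | h0
  · subst h0
    exact ⟨fun i => i.elim0, fun i => i.elim0, by simp, by simp⟩
  have hs1 : (1 : ℝ) ≤ s := by exact_mod_cast h0
  have hn1 : (1 : ℝ) ≤ n := by exact_mod_cast hn
  have hsn : (s : ℝ) ≤ n := by exact_mod_cast hs
  have hm2 : 2 ≤ m := by linarith
  have hm0 : 0 < m := by linarith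
  have hm1 : 0 < m - 1 := by linarith
  have hnm : (n : ℝ) = m - s := by linarith
  set P1 : ℝ := (s : ℝ) ^ 2 / m with hP1
  set P2 : ℝ := (s : ℝ) ^ 4 / m ^ 2 - (s : ℝ) ^ 2 * (s - 1) ^ 2 / (m * (m - 1)) with hP2
  have hP1nn : 0 ≤ P1 := by positivity
  have hP1s : P1 < s := by
    rw [hP1, div_lt_iff₀ hm0]; nlinarith
  set h : ℕ := ⌊P1⌋₊ with hh
  have hle : (h : ℝ) ≤ P1 := Nat.floor_le hP1nn
  have hlt : P1 < h + 1 := Nat.lt_floor_add_one P1
  have hhs : h < s := by
    have : (h : ℝ) < s := lt_of_le_of_lt hle hP1s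
    exact_mod_cast this
  set θ : ℝ := P1 - h with hθ
  have hθ0 : 0 ≤ θ := by linarith
  have hθ1 : θ < 1 := by linarith
  let w : Fin s → ℝ := fun i => if (i : ℕ) < h then 1 else if (i : ℕ) = h then θ else 0
  have hw0 : ∀ i, 0 ≤ w i ∧ w i ≤ 1 := by
    intro i; simp only [w]; split_ifs <;> constructor <;> linarith
  have hw1 : ∑ i, w i = P1 := by
    simp only [w]; rw [sum_step s h hhs]; rw [hθ]; ring
  have hw2 : ∑ i, w i ^ 2 = h + θ ^ 2 := by
    have : ∀ i, w i ^ 2 = if (i : ℕ) < h then (1 : ℝ) else if (i : ℕ) = h then θ ^ 2 else 0 := by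
      intro i; simp only [w]; split_ifs <;> simp
    simp only [this]; rw [sum_step s h hhs]; ring
  set c : ℝ := s / m with hc
  have hc0 : 0 ≤ c := by positivity
  have hc1 : c ≤ 1 := by rw [hc, div_le_one hm0]; linarith
  -- the two ends
  have end0 : (s : ℝ) * c ^ 2 ≤ P2 := by
    have : P2 - (s : ℝ) * c ^ 2 = (s : ℝ) ^ 2 * (s - 1) / m ^ 2 * (m - s) / (m - 1) := by
      rw [hP2, hc]; field_simp; ring
    have h2 : 0 ≤ (s : ℝ) ^ 2 * (s - 1) / m ^ 2 * (m - s) / (m - 1) := by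
      have a1 : 0 ≤ (s : ℝ) - 1 := by linarith
      have a2 : 0 ≤ m - s := by linarith
      positivity
    linarith
  have end1 : P2 ≤ h + θ ^ 2 := by
    have e1 : P1 - P2 = (s : ℝ) ^ 2 * n ^ 2 / (m ^ 2 * (m - 1)) := by
      rw [hP2, hP1, hnm]; field_simp; ring
    by_cases hcase : P1 < 1
    · have hh0 : h = 0 := by rw [hh]; exact Nat.floor_eq_zero.2 hcase
      have hth : θ = P1 := by rw [hθ, hh0]; simp
      rw [hh0, hth]
      have : P1 ^ 2 - P2 = (s : ℝ) ^ 2 * (s - 1) ^ 2 / (m * (m - 1)) := by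
        rw [hP2, hP1]; field_simp; ring
      have h3 : 0 ≤ (s : ℝ) ^ 2 * (s - 1) ^ 2 / (m * (m - 1)) := by positivity
      simp only [CharP.cast_eq_zero, zero_add]
      linarith
    · push Not at hcase
      have h4 : m ≤ (s : ℝ) ^ 2 := by
        rw [hP1, le_div_iff₀ hm0] at hcase; linarith
      have h5 : 1 / 4 ≤ (s : ℝ) ^ 2 * n ^ 2 / (m ^ 2 * (m - 1)) := by
        rw [div_le_div_iff₀ (by norm_num) (by positivity)]
        have h6 : m ^ 2 ≤ 4 * (n : ℝ) ^ 2 := by nlinarith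
        have h7 : m - 1 ≤ (s : ℝ) ^ 2 := by linarith
        nlinarith [mul_le_mul h6 h7 hm1.le (by positivity)]
      have h8 : (h : ℝ) + θ ^ 2 = P1 - θ * (1 - θ) := by rw [hθ]; ring
      have h9 : θ * (1 - θ) ≤ 1 / 4 := by nlinarith [sq_nonneg (θ - 1 / 2)]
      rw [h8]; linarith
  -- the intermediate value theorem
  let F : ℝ → ℝ := fun t => ∑ i, ((1 - t) * c + t * w i) ^ 2
  have hF : Continuous F := by
    apply continuous_finsetSum
    intro i _
    fun_prop
  have hF0 : F 0 = s * c ^ 2 := by simp [F]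
  have hF1 : F 1 = h + θ ^ 2 := by simp only [F]; rw [← hw2]; simp
  obtain ⟨t, ⟨ht0, ht1⟩, ht⟩ : P2 ∈ F '' Set.Icc 0 1 := by
    apply intermediate_value_Icc zero_le_one hF.continuousOn
    rw [hF0, hF1]; exact ⟨end0, end1⟩
  refine ⟨fun i => (1 - t) * c + t * w i, ?_, ?_, ht⟩
  · intro i
    have := hw0 i
    constructor
    · exact add_nonneg (mul_nonneg (sub_nonneg.2 ht1) hc0) (mul_nonneg ht0 this.1)
    · have a1 := mul_le_mul_of_nonneg_left hc1 (sub_nonneg.2 ht1)
      have a2 := mul_le_mul_of_nonneg_left this.2 ht0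
      linarith
  · rw [Finset.sum_add_distrib, ← Finset.mul_sum, ← Finset.mul_sum, hw1]
    simp only [sum_const, card_univ, Fintype.card_fin, nsmul_eq_mul]
    rw [hc, hP1]; ring

end Pool.Agent.NH92.Shuf
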