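import Pool.Agent.NH92.Shuf.Match
import Pool.Agent.NH92.Shuf.Pex

/-!
The extension lemma: from shuffles of `n = s + r` points to a shuffle of `2 s + r` points.
-/

namespace Pool.Agent.NH92.Shuf

open Finset

theorem sum_offDiag' {V : Type*} [DecidableEq V] (A : Finset V) (f : V → V → ℝ) :
    ∑ u ∈ A.offDiag, f u.1 u.2 = (∑ u ∈ A, ∑ w ∈ A, f u w) - ∑ u ∈ A, f u u := by
  have e1 : A.offDiag = (A ×ˢ A).filter (fun u => u.1 ≠ u.2) := by
    ext u; simp [mem_offDiag, and_assoc]
  rw [e1, Finset.sum_filter, Finset.sum_product, ← Finset.sum_sub_distrib]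
  apply Finset.sum_congr rfl
  intro u hu
  have e2 : ∀ w ∈ A, (if u ≠ w then f u w else 0) = f u w - (if u = w then f u w else 0) := by
    intro w _; by_cases h : u = w <;> simp [h]
  simp only [Finset.sum_congr rfl e2, Finset.sum_sub_distrib, Finset.sum_ite_eq, hu, if_true]

namespace Ext

variable {s r : ℕ}

abbrev VV (s r : ℕ) : Type := (Fin s × Bool) ⊕ Fin r

def tau : VV s r → VV s r
  | Sum.inl (i, b) => Sum.inl (i, !b)
  | Sum.inr j => Sum.inr j

def PP (p : Fin s → ℝ) : VV s r → ℝ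
  | Sum.inl (i, _) => p i
  | Sum.inr _ => 0

def isA : VV s r → Bool
  | Sum.inl (_, b) => b
  | Sum.inr _ => true

def isB : VV s r → Bool
  | Sum.inl (_, b) => !b
  | Sum.inr _ => true

def chi : VV s r → ℝ
  | Sum.inl (_, true) => 1
  | Sum.inl (_, false) => 0
  | Sum.inr _ => 0

def uu (p : Fin s → ℝ) : VV s r → ℝ
  | Sum.inl (i, true) => 1 - p i
  | Sum.inl (i, false) => p i
  | Sum.inr _ => 0

def A (s r : ℕ) : Finset (VV s r) := univ.filter (fun x => isA x = true)
def B (s r : ℕ) : Finset (VV s r) := univ.filter (fun x => isB x = true)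

theorem mem_A (x : VV s r) : x ∈ A s r ↔ isA x = true := by simp only [A, mem_filter_univ]
theorem mem_B (x : VV s r) : x ∈ B s r ↔ isB x = true := by simp only [B, mem_filter_univ]

@[simp] theorem mA_inl (i : Fin s) (b : Bool) : (Sum.inl (i, b) : VV s r) ∈ A s r ↔ b = true := by
  rw [mem_A]; rfl
@[simp] theorem mA_inr (j : Fin r) : (Sum.inr j : VV s r) ∈ A s r := by
  rw [mem_A]; rfl
@[simp] theorem mB_inl (i : Fin s) (b : Bool) : (Sum.inl (i, b) : VV s r) ∈ B s r ↔ b = false := by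
  rw [mem_B]; simp [isB]
@[simp] theorem mB_inr (j : Fin r) : (Sum.inr j : VV s r) ∈ B s r := by
  rw [mem_B]; rfl

theorem tau_tau (x : VV s r) : tau (tau x) = x := by
  rcases x with ⟨i, b⟩ | j <;> simp [tau]

theorem PP_tau (p : Fin s → ℝ) (x : VV s r) : PP p (tau x) = PP p x := by
  rcases x with ⟨i, b⟩ | j <;> simp [tau, PP]

theorem sumA (g : VV s r → ℝ) :
    ∑ x ∈ A s r, g x = ∑ i, g (Sum.inl (i, true)) + ∑ j, g (Sum.inr j) := by
  rw [A, Finset.sum_filter, Fintype.sum_sum_type, Fintype.sum_prod_type]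
  simp [isA]

theorem sumB (g : VV s r → ℝ) :
    ∑ x ∈ B s r, g x = ∑ i, g (Sum.inl (i, false)) + ∑ j, g (Sum.inr j) := by
  rw [B, Finset.sum_filter, Fintype.sum_sum_type, Fintype.sum_prod_type]
  simp [isB]

theorem cardA : #(A s r) = s + r := by
  have h := sumA (s := s) (r := r) (fun _ => 1)
  simp only [sum_const, nsmul_eq_mul, mul_one, card_univ, Fintype.card_fin] at h
  exact_mod_cast h

theorem cardB : #(B s r) = s + r := by
  have h := sumB (s := s) (r := r) (fun _ => 1)
  simp only [sum_const, nsmul_eq_mul, mul_one, card_univ, Fintype.card_fin] at h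
  exact_mod_cast h

/-- the representatives -/
noncomputable def R (s r : ℕ) : List (VV s r) :=
  (univ : Finset (Fin s)).toList.map (fun i => Sum.inl (i, true))

theorem R_nodup : (R s r).Nodup := by
  unfold R
  apply List.Nodup.map
  · intro i j h; simpa using h
  · exact Finset.nodup_toList _

theorem mem_R (x : VV s r) : x ∈ R s r ↔ ∃ i, x = Sum.inl (i, true) := by
  simp only [R, List.mem_map, Finset.mem_toList, mem_univ, true_and]
  constructor
  · rintro ⟨i, h⟩; exact ⟨i, h.symm⟩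
  · rintro ⟨i, h⟩; exact ⟨i, h.symm⟩

theorem R_tau (x : VV s r) (hx : x ∈ R s r) : tau x ∉ R s r := by
  obtain ⟨i, rfl⟩ := (mem_R x).1 hx
  rw [mem_R]; rintro ⟨j, h⟩; simp [tau] at h

theorem tp_eq (p : Fin s → ℝ) (x : VV s r) : tp tau (PP p) (R s r) x = PP p x := by
  unfold tp
  rcases x with ⟨i, b⟩ | j
  · rw [if_pos]
    rw [mem_R, mem_R]
    cases b
    · right; exact ⟨i, by simp [tau]⟩
    · left; exact ⟨i, rfl⟩
  · simp [PP]

noncomputable def Lam (r : ℕ) (p : Fin s → ℝ) : List (Lz (VV s r)) := (R s r).map (mk tau (PP p))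

theorem u_eq (p : Fin s → ℝ) (x : VV s r) :
    (1 - PP p x) * chi x + PP p x * chi (tau x) = uu p x := by
  rcases x with ⟨i, b⟩ | j
  · cases b <;> simp [tau, PP, chi, uu]
  · simp [tau, PP, chi, uu]

theorem lam1 (p : Fin s → ℝ) (x : VV s r) : run1 (Lam r p) chi x = uu p x := by
  rw [Lam, match1 tau_tau (PP_tau p) R_nodup R_tau, tp_eq, u_eq]

theorem lam2 (p : Fin s → ℝ) {x y : VV s r} (hxy : x ≠ y) :
    run (Lam r p) (fun a b => chi a * chi b) x y
      = if y = tau x then 0 else uu p x * uu p y := by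
  rw [Lam, match2 tau_tau (PP_tau p) R_nodup R_tau _ hxy, tp_eq, tp_eq]
  split_ifs with h
  · subst h
    rcases x with ⟨i, b⟩ | j
    · cases b <;> simp [tau, chi]
    · exact absurd rfl hxy
  · rw [← u_eq, ← u_eq]; ring

section main

variable {p : Fin s → ℝ} {P1 P2 m n c : ℝ}

theorem sumA_uu (h1 : ∑ i, p i = P1) : ∑ x ∈ A s r, uu p x = s - P1 := by
  rw [sumA]; simp [uu, h1]

theorem sumA_uu2 (h1 : ∑ i, p i = P1) (h2 : ∑ i, p i ^ 2 = P2) :
    ∑ x ∈ A s r, uu p x * uu p x = s - 2 * P1 + P2 := by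
  rw [sumA]
  have : ∀ i, uu (r := r) p (Sum.inl (i, true)) * uu (r := r) p (Sum.inl (i, true))
      = 1 - 2 * p i + p i ^ 2 := by intro i; simp only [uu]; ring
  simp only [this]
  rw [Finset.sum_add_distrib, Finset.sum_sub_distrib, ← Finset.mul_sum, h1, h2]
  simp [uu]

/-- values of the transform of `chi` -/
theorem chi1 {LA LB : List (Lz (VV s r))} (hA : Sh (A s r) LA) (hB : Sh (B s r) LB)
    (hs : 0 < s) (h1 : ∑ i, p i = P1) (hm : m = s + r + s) (hP1 : P1 = (s : ℝ) ^ 2 / m)
    (x : VV s r) : run1 (LB ++ LA ++ Lam r p) chi x = s / m := by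
  have hs' : (0 : ℝ) < s := by exact_mod_cast hs
  have hr' : (0 : ℝ) ≤ r := by positivity
  have hm0 : 0 < m := by rw [hm]; linarith
  have hn0 : (0 : ℝ) < s + r := by linarith
  have hn : ((s + r : ℕ) : ℝ) = s + r := by push_cast; ring
  rw [run1_append, run1_append]
  have e0 : run1 (Lam r p) chi = uu p := by ext x; exact lam1 p x
  rw [e0]
  have e1 : ∀ x ∈ A s r, run1 LA (uu p) x = s / m := by
    intro x hx
    rw [hA.run1_eq _ hx, sumA_uu h1, cardA, hn, hP1, hm]; field_simp; ring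
  have e2 : ∀ x ∉ A s r, run1 LA (uu p) x = uu p x := fun x hx => run1_off hA.on _ hx
  by_cases hx : x ∈ B s r
  · rw [hB.run1_eq _ hx, sumB, cardB]
    have e3 : ∀ i : Fin s, run1 LA (uu p) (Sum.inl (i, false)) = p i := by
      intro i; rw [e2 _ (by simp)]; rfl
    have e4 : ∀ j : Fin r, run1 LA (uu p) (Sum.inr j) = s / m := by
      intro j; rw [e1 _ (by simp)]
    simp only [e3, e4, h1, sum_const, card_univ, Fintype.card_fin, nsmul_eq_mul, hP1, hn]
    rw [hm]; field_simp
  · rw [run1_off hB.on _ hx]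
    apply e1
    rcases x with ⟨i, b⟩ | j
    · cases b <;> simp at hx ⊢
    · simp

/-- the three identities -/
theorem ids {s r m c P1 P2 : ℝ} (hs : 0 < s) (hr : 0 ≤ r) (hm : m = s + r + s) (hm1 : m ≠ 1)
    (hc : c = s * (s - 1) / (m * (m - 1)))
    (hP1 : P1 = s ^ 2 / m)
    (hP2 : P2 = s ^ 4 / m ^ 2 - s ^ 2 * (s - 1) ^ 2 / (m * (m - 1))) :
    (s - P1) ^ 2 - (s - 2 * P1 + P2) = (s + r) * (s + r - 1) * c ∧
    P1 * (s - P1 - 1) + P2 = (s + r) * s * c ∧
    P1 ^ 2 - P2 = s * (s - 1) * c := by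
  have hm0 : m ≠ 0 := by rw [hm]; linarith
  have hm1' : m - 1 ≠ 0 := sub_ne_zero.2 hm1
  have hr' : r = m - s - s := by rw [hm]; ring
  refine ⟨?_, ?_, ?_⟩
  · rw [hP1, hP2, hc, hr']; field_simp; ring
  · rw [hP1, hP2, hc, hr']; field_simp; ring
  · rw [hP1, hP2, hc]; field_simp; ring

theorem chi_symm (L : List (Lz (VV s r))) (x y : VV s r) :
    run L (fun a b => chi a * chi b) x y = run L (fun a b => chi a * chi b) y x := by
  rw [← run_flip]; congr 1; ext a b; rw [mul_comm]

/-- values of the transform of `chi ⊗ chi` -/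
theorem chi2 {LA LB : List (Lz (VV s r))} (hA : Sh (A s r) LA) (hB : Sh (B s r) LB)
    (hs : 0 < s) (h1 : ∑ i, p i = P1) (h2 : ∑ i, p i ^ 2 = P2)
    (e1 : ((s : ℝ) - P1) ^ 2 - (s - 2 * P1 + P2) = (s + r) * (s + r - 1) * c)
    (e2 : P1 * (s - P1 - 1) + P2 = ((s : ℝ) + r) * s * c)
    (e3 : P1 ^ 2 - P2 = (s : ℝ) * (s - 1) * c)
    {x y : VV s r} (hxy : x ≠ y) :
    run (LB ++ LA ++ Lam r p) (fun a b => chi a * chi b) x y = c := by
  have hs' : (0 : ℝ) < s := by exact_mod_cast hs
  have hr' : (0 : ℝ) ≤ r := by positivity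
  have hn0 : (0 : ℝ) < s + r := by linarith
  have hn : ((s + r : ℕ) : ℝ) = s + r := by push_cast; ring
  set w : VV s r → VV s r → ℝ := run (Lam r p) (fun a b => chi a * chi b) with hw
  have w_eq : ∀ a b, a ≠ b → w a b = if b = tau a then 0 else uu p a * uu p b :=
    fun a b hab => lam2 p hab
  set k : VV s r → VV s r → ℝ := run LA w with hk
  have k_symm : ∀ a b, k a b = k b a := by
    intro a b
    have := chi_symm (LA ++ Lam r p) a b
    rwa [run_append] at this
  have kAA : ∀ a ∈ A s r, ∀ b ∈ A s r, a ≠ b → k a b = c := by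
    intro a ha b hb hab
    have h0 : 2 ≤ #(A s r) := Finset.one_lt_card.2 ⟨a, ha, b, hb, hab⟩
    have h1' : (2 : ℝ) ≤ s + r := by rw [cardA] at h0; rw [← hn]; exact_mod_cast h0
    have h3 := hA.two w a ha b hb hab
    rw [cardA, hn] at h3
    have h4 : ∑ u ∈ (A s r).offDiag, w u.1 u.2 = ∑ u ∈ (A s r).offDiag, uu p u.1 * uu p u.2 := by
      apply Finset.sum_congr rfl
      rintro ⟨u, v⟩ huv
      rw [mem_offDiag] at huv
      simp only at huv ⊢
      rw [w_eq _ _ huv.2.2, if_neg]
      intro h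
      rcases u with ⟨i, b⟩ | j
      · rw [mA_inl] at huv
        subst h
        simp only [tau, mA_inl, Bool.not_eq_true'] at huv
        rw [huv.1] at huv
        exact absurd huv.2.1 (by simp)
      · exact huv.2.2 h.symm
    rw [h4, sum_offDiag' (A s r) (fun a b => uu p a * uu p b), ← Finset.sum_mul_sum,
      sumA_uu h1, sumA_uu2 h1 h2] at h3
    have h5 : k a b * (((s : ℝ) + r) * (s + r - 1)) = c * (((s : ℝ) + r) * (s + r - 1)) := by
      rw [h3]; linarith
    exact mul_right_cancel₀ (mul_ne_zero (by linarith) (by linarith)) h5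
  let al : Fin s → ℝ := fun j => p j * (s - P1 - 1 + p j) / (s + r)
  have kAZ : ∀ a ∈ A s r, ∀ j : Fin s, k a (Sum.inl (j, false)) = al j := by
    intro a ha j
    have hz : (Sum.inl (j, false) : VV s r) ∉ A s r := by simp
    rw [hk, run_off_right hA.on _ hz, hA.run1_eq _ ha, cardA, hn, sumA]
    have h3 : ∀ i : Fin s, w (Sum.inl (i, true)) (Sum.inl (j, false))
        = (1 - p i) * p j - if j = i then (1 - p i) * p j else 0 := by
      intro i
      rw [w_eq _ _ (by simp)]
      by_cases hij : j = i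
      · subst hij; simp [tau]
      · simp [tau, hij, uu]
    have h4 : ∀ i : Fin r, w (Sum.inr i) (Sum.inl (j, false)) = 0 := by
      intro i
      rw [w_eq _ _ (by simp)]
      simp [tau, uu]
    simp only [h3, h4, Finset.sum_sub_distrib, Finset.sum_ite_eq, mem_univ, if_true,
      ← Finset.sum_mul, h1, sum_const_zero, add_zero, sum_const, card_univ, Fintype.card_fin,
      nsmul_eq_mul, mul_one]
    simp only [al]
    congr 1; ring
  have kZZ : ∀ i j : Fin s, i ≠ j → k (Sum.inl (i, false)) (Sum.inl (j, false)) = p i * p j := by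
    intro i j hij
    rw [hk, run_off hA.on _ (by simp) (by simp), w_eq _ _ (by simpa using hij)]
    simp [tau, uu]
  have sal : ∑ j, al j = s * c := by
    simp only [al]
    rw [← Finset.sum_div]
    have : ∀ j, p j * (s - P1 - 1 + p j) = (s - P1 - 1) * p j + p j ^ 2 := by intro j; ring
    simp only [this]
    rw [Finset.sum_add_distrib, ← Finset.mul_sum, h1, h2, div_eq_iff hn0.ne']
    linarith
  have inA : ∀ a : VV s r, a ∉ B s r → a ∈ A s r := by
    intro a ha
    rcases a with ⟨i, b⟩ | j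
    · cases b <;> simp at ha ⊢
    · simp
  have KXB : ∀ a ∉ B s r, ∀ b ∈ B s r, run LB k a b = c := by
    intro a ha b hb
    rw [run_off_left hB.on _ ha, hB.run1_eq _ hb, cardB, hn, sumB]
    have h3 : ∀ j : Fin s, k a (Sum.inl (j, false)) = al j := kAZ a (inA a ha)
    have h4 : ∀ j : Fin r, k a (Sum.inr j) = c := by
      intro j
      exact kAA a (inA a ha) _ (by simp) (fun h => ha (by rw [h]; simp))
    simp only [h3, h4, sal, sum_const, card_univ, Fintype.card_fin, nsmul_eq_mul]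
    field_simp
  have e0 : run (LB ++ LA ++ Lam r p) (fun a b => chi a * chi b) = run LB k := by
    rw [run_append, run_append]
  have K_symm : ∀ a b, run LB k a b = run LB k b a := by
    intro a b; rw [← e0]; exact chi_symm _ a b
  rw [e0]
  by_cases hx : x ∈ B s r
  · by_cases hy : y ∈ B s r
    · have h0 : 2 ≤ #(B s r) := Finset.one_lt_card.2 ⟨x, hx, y, hy, hxy⟩
      have h1' : (2 : ℝ) ≤ s + r := by rw [cardB] at h0; rw [← hn]; exact_mod_cast h0
      have h3 := hB.two k x hx y hy hxy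
      rw [cardB, hn] at h3
      let v : VV s r → VV s r → ℝ
        | Sum.inl (i, _), Sum.inl (j, _) => p i * p j
        | Sum.inl (i, _), Sum.inr _ => al i
        | Sum.inr _, Sum.inl (j, _) => al j
        | Sum.inr _, Sum.inr _ => c
      have h4 : ∑ u ∈ (B s r).offDiag, k u.1 u.2 = ∑ u ∈ (B s r).offDiag, v u.1 u.2 := by
        apply Finset.sum_congr rfl
        rintro ⟨a, b⟩ hab
        rw [mem_offDiag] at hab
        simp only at hab ⊢
        rcases a with ⟨i, a⟩ | i <;> rcases b with ⟨j, b⟩ | j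
        · rw [mB_inl, mB_inl] at hab
          obtain ⟨rfl, rfl, hne⟩ := hab
          exact kZZ i j (fun h => hne (by rw [h]))
        · rw [mB_inl] at hab
          obtain ⟨rfl, _, hne⟩ := hab
          rw [k_symm]
          exact kAZ _ (by simp) i
        · rw [mB_inl] at hab
          obtain ⟨_, rfl, hne⟩ := hab
          exact kAZ _ (by simp) j
        · exact kAA _ (by simp) _ (by simp) hab.2.2
      rw [h4, sum_offDiag' (B s r) v, sumB, sumB] at h3
      simp only [sumB] at h3
      simp only [v, sum_const, card_univ, Fintype.card_fin, nsmul_eq_mul, sal,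
        Finset.sum_add_distrib, ← Finset.mul_sum, ← Finset.sum_mul, h1] at h3
      have h6 : ∑ i, p i * p i = P2 := by rw [← h2]; congr 1; ext i; ring
      rw [h6] at h3
      have h5 : run LB k x y * (((s : ℝ) + r) * (s + r - 1)) = c * (((s : ℝ) + r) * (s + r - 1)) := by
        rw [h3]; linarith
      exact mul_right_cancel₀ (mul_ne_zero (by linarith) (by linarith)) h5
    · rw [K_symm]; exact KXB y hy x hx
  · by_cases hy : y ∈ B s r
    · exact KXB x hx y hy
    · rw [run_off hB.on _ hx hy]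
      exact kAA x (inA x hx) y (inA y hy) hxy

/-- after shuffles of `B` and then of `A`, a function of pairs depends only on the sides -/
theorem two_const {LA LB : List (Lz (VV s r))} (hA : Sh (A s r) LA) (hB : Sh (B s r) LB)
    (f : VV s r → VV s r → ℝ) : ∃ b0 b1 b2 b3 : ℝ, ∀ x y, x ≠ y →
      run (LB ++ LA) f x y = b0 + b1 * chi x + b2 * chi y + b3 * (chi x * chi y) := by
  set k : VV s r → VV s r → ℝ := run LA f with hk
  set n : ℝ := ((s + r : ℕ) : ℝ) with hn
  let cA : ℝ := (∑ u ∈ (A s r).offDiag, f u.1 u.2) / (n * (n - 1))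
  have kAA : ∀ a ∈ A s r, ∀ b ∈ A s r, a ≠ b → k a b = cA := by
    intro a ha b hb hab
    rw [hk, hA.run_eq f ha hb hab, cardA]
  have kAZ : ∀ a ∈ A s r, ∀ b ∉ A s r, k a b = (∑ u ∈ A s r, f u b) / n := by
    intro a ha b hb
    rw [hk, run_off_right hA.on _ hb, hA.run1_eq _ ha, cardA]
  have kZA : ∀ a ∉ A s r, ∀ b ∈ A s r, k a b = (∑ u ∈ A s r, f a u) / n := by
    intro a ha b hb
    rw [hk, run_off_left hA.on _ ha, hA.run1_eq _ hb, cardA]
  have inA : ∀ a : VV s r, a ∉ B s r → a ∈ A s r := by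
    intro a ha
    rcases a with ⟨i, b⟩ | j
    · cases b <;> simp at ha ⊢
    · simp
  let bB : ℝ := (∑ u ∈ (B s r).offDiag, k u.1 u.2) / (n * (n - 1))
  let bXB : ℝ := (∑ w ∈ B s r, if w ∈ A s r then cA else (∑ u ∈ A s r, f u w) / n) / n
  let bBX : ℝ := (∑ w ∈ B s r, if w ∈ A s r then cA else (∑ u ∈ A s r, f w u) / n) / n
  have cX : ∀ a : VV s r, a ∉ B s r → chi a = 1 := by
    intro a ha
    rcases a with ⟨i, b⟩ | j
    · cases b
      · simp at ha
      · rfl
    · simp at ha
  have cB : ∀ a : VV s r, a ∈ B s r → chi a = 0 := by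
    intro a ha
    rcases a with ⟨i, b⟩ | j
    · cases b
      · rfl
      · simp at ha
    · rfl
  refine ⟨bB, bXB - bB, bBX - bB, cA - bXB - bBX + bB, ?_⟩
  intro x y hxy
  rw [run_append, ← hk]
  by_cases hx : x ∈ B s r
  · by_cases hy : y ∈ B s r
    · rw [hB.run_eq _ hx hy hxy, cardB, cB x hx, cB y hy]
      simp only [bB]; ring
    · rw [run_off_right hB.on _ hy, hB.run1_eq _ hx, cardB, cB x hx, cX y hy]
      have : ∑ u ∈ B s r, k u y
          = ∑ w ∈ B s r, if w ∈ A s r then cA else (∑ u ∈ A s r, f w u) / n := by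
        apply Finset.sum_congr rfl
        intro u hu
        have huy : u ≠ y := fun h => hy (h ▸ hu)
        split_ifs with h
        · exact kAA u h y (inA y hy) huy
        · exact kZA u h y (inA y hy)
      rw [this]
      simp only [bBX]; ring
  · by_cases hy : y ∈ B s r
    · rw [run_off_left hB.on _ hx, hB.run1_eq _ hy, cardB, cX x hx, cB y hy]
      have : ∑ u ∈ B s r, k x u
          = ∑ w ∈ B s r, if w ∈ A s r then cA else (∑ u ∈ A s r, f u w) / n := by
        apply Finset.sum_congr rfl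
        intro u hu
        have huy : x ≠ u := fun h => hx (h ▸ hu)
        split_ifs with h
        · exact kAA x (inA x hx) u h huy
        · exact kAZ x (inA x hx) u h
      rw [this]
      simp only [bXB]; ring
    · rw [run_off hB.on _ hx hy, kAA x (inA x hx) y (inA y hy) hxy, cX x hx, cX y hy]
      ring

theorem lam_ok (hp : ∀ i, 0 ≤ p i ∧ p i ≤ 1) : ∀ t ∈ Lam r p, t.Ok := by
  intro t ht
  rw [Lam, List.mem_map] at ht
  obtain ⟨x, hx, rfl⟩ := ht
  obtain ⟨i, rfl⟩ := (mem_R x).1 hx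
  refine ⟨?_, (hp i).1, (hp i).2⟩
  simp [mk, tau]

theorem on_univ {V : Type*} [Fintype V] (L : List (Lz V)) : On (univ : Finset V) L :=
  fun _ _ => ⟨mem_univ _, mem_univ _⟩

theorem card_VV : Fintype.card (VV s r) = 2 * s + r := by
  simp [VV]; ring

theorem ext_sh {LA LB : List (Lz (VV s r))} (hA : Sh (A s r) LA) (hB : Sh (B s r) LB)
    (hs : 0 < s) : ∃ p : Fin s → ℝ,
      Sh (univ : Finset (VV s r)) (LB ++ LA ++ Lam r p ++ (LB ++ LA)) := by
  obtain ⟨p, hp, h1, h2⟩ := exists_p s (s + r) (by omega) (by omega) ((s : ℝ) + r + s)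
    (by push_cast; ring)
  refine ⟨p, ?_⟩
  have hs' : (1 : ℝ) ≤ s := by exact_mod_cast hs
  have hr' : (0 : ℝ) ≤ r := by positivity
  obtain ⟨i1, i2, i3⟩ := ids (s := s) (r := r) (m := (s : ℝ) + r + s) (by linarith) hr' rfl
    (by intro h; linarith) rfl (P1 := ∑ i, p i) (P2 := ∑ i, p i ^ 2) h1 h2
  apply Sh.of_const
  · rw [card_univ, card_VV]; omega
  · intro t ht
    simp only [List.mem_append] at ht
    rcases ht with (((ht | ht) | ht) | (ht | ht))
    · exact hB.ok t ht
    · exact hA.ok t ht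
    · exact lam_ok hp t ht
    · exact hB.ok t ht
    · exact hA.ok t ht
  · exact on_univ _
  · intro f
    obtain ⟨b0, b1, b2, b3, hb⟩ := two_const hA hB f
    refine ⟨b0 + b1 * (s / ((s : ℝ) + r + s)) + b2 * (s / ((s : ℝ) + r + s))
      + b3 * ((s : ℝ) * (s - 1) / (((s : ℝ) + r + s) * ((s : ℝ) + r + s - 1))), ?_⟩
    intro x _ y _ hxy
    rw [run_append]
    have h3 := run_congr (L := LB ++ LA ++ Lam r p) hb hxy
    rw [h3]
    have h4 : run (LB ++ LA ++ Lam r p)
        (fun x y => b0 + b1 * chi x + b2 * chi y + b3 * (chi x * chi y)) x y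
        = b0 + b1 * run1 (LB ++ LA ++ Lam r p) chi x + b2 * run1 (LB ++ LA ++ Lam r p) chi y
          + b3 * run (LB ++ LA ++ Lam r p) (fun a b => chi a * chi b) x y := by
      have a1 := run_lin (LB ++ LA ++ Lam r p) (fun x y => b0 + b1 * chi x + b2 * chi y)
        (fun x y => chi x * chi y) 1 b3 x y
      have a2 := run_lin (LB ++ LA ++ Lam r p) (fun x y => b0 + b1 * chi x)
        (fun x y => chi y) 1 b2 x y
      have a3 := run_lin (LB ++ LA ++ Lam r p) (fun x y => b0)
        (fun x y => chi x) 1 b1 x y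
      simp only [one_mul] at a1 a2 a3
      rw [a1, a2, a3, run_const, run_fst, run_snd]
    rw [h4, chi1 hA hB hs rfl rfl h1, chi1 hA hB hs rfl rfl h1,
      chi2 hA hB hs rfl rfl i1 i2 i3 hxy]

end main

end Ext

/-- the extension lemma -/
theorem TB.ext {s r l : ℕ} (h : TB (s + r) l) : TB (2 * s + r) (4 * l + s) := by
  rcases Nat.eq_zero_or_pos s with h0 | h0
  · subst h0
    simp only [zero_add, mul_zero] at h ⊢
    exact h.mono (by omega)
  obtain ⟨LA, hlA, hA⟩ := h (Ext.VV s r) (Ext.A s r) Ext.cardA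
  obtain ⟨LB, hlB, hB⟩ := h (Ext.VV s r) (Ext.B s r) Ext.cardB
  obtain ⟨p, hp⟩ := Ext.ext_sh hA hB h0
  refine TB.of_type Ext.card_VV ?_ hp
  simp only [List.length_append, Ext.Lam, List.length_map, Ext.R, Finset.length_toList, card_univ,
    Fintype.card_fin]
  omega

end Pool.Agent.NH92.Shuf
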