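import Pool.Agent.NH92.Shuf.Basic

/-!
The entropy lower bound.
-/

namespace Pool.Agent.NH92.Shuf

open Finset Real

theorem negMulLog_add_le {s t : ℝ} (hs : 0 ≤ s) (ht : 0 ≤ t) :
    negMulLog (s + t) ≤ negMulLog s + negMulLog t := by
  rcases hs.eq_or_lt with rfl | hs'
  · simp
  rcases ht.eq_or_lt with rfl | ht'
  · simp
  have h1 : log s ≤ log (s + t) := log_le_log hs' (by linarith)
  have h2 : log t ≤ log (s + t) := log_le_log ht' (by linarith)
  simp only [negMulLog]
  nlinarith

theorem mix_le {p u v : ℝ} (hp0 : 0 ≤ p) (hp1 : p ≤ 1) (hu : 0 ≤ u) (hv : 0 ≤ v) :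
    negMulLog ((1 - p) * u + p * v) ≤ (1 - p) * negMulLog u + p * negMulLog v
      + (u * negMulLog (1 - p) + v * negMulLog p) := by
  have h := negMulLog_add_le (mul_nonneg (sub_nonneg.2 hp1) hu) (mul_nonneg hp0 hv)
  rw [negMulLog_mul, negMulLog_mul] at h
  linarith

variable {V : Type*} [DecidableEq V] [Fintype V]

/-- the entropy of a row -/
noncomputable def ent (r : V → ℝ) : ℝ := ∑ y, negMulLog (r y)

theorem ent_mix {p : ℝ} {r s : V → ℝ} (hp0 : 0 ≤ p) (hp1 : p ≤ 1) (hr : ∀ y, 0 ≤ r y)
    (hs : ∀ y, 0 ≤ s y) (hr1 : ∑ y, r y = 1) (hs1 : ∑ y, s y = 1) :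
    ent (fun y => (1 - p) * r y + p * s y) ≤ (1 - p) * ent r + p * ent s + log 2 := by
  unfold ent
  have h1 : ∑ y, negMulLog ((1 - p) * r y + p * s y) ≤
      ∑ y, ((1 - p) * negMulLog (r y) + p * negMulLog (s y)
        + (r y * negMulLog (1 - p) + s y * negMulLog p)) :=
    Finset.sum_le_sum (fun y _ => mix_le hp0 hp1 (hr y) (hs y))
  rw [Finset.sum_add_distrib, Finset.sum_add_distrib, Finset.sum_add_distrib, ← Finset.mul_sum,
    ← Finset.mul_sum, ← Finset.sum_mul, ← Finset.sum_mul, hr1, hs1] at h1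
  have h2 : negMulLog p + negMulLog (1 - p) ≤ log 2 := by
    have := binEntropy_le_log_two (p := p)
    rwa [binEntropy_eq_negMulLog_add_negMulLog_one_sub] at this
  linarith

/-- the matrix of one point probabilities -/
noncomputable def mat (L : List (Lz V)) (x y : V) : ℝ := run1 L (fun a => if a = y then 1 else 0) x

theorem mat_nonneg {L : List (Lz V)} (hL : ∀ t ∈ L, t.Ok) (x y : V) : 0 ≤ mat L x y := by
  unfold mat
  induction L generalizing x with
  | nil => simp only [run1_nil]; split_ifs <;> norm_num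
  | cons t L ih =>
    have h1 := hL t (by simp)
    have ih' := ih (fun s hs => hL s (by simp [hs]))
    simp only [run1_cons, st1]
    exact add_nonneg (mul_nonneg (sub_nonneg.2 h1.2.2) (ih' _)) (mul_nonneg h1.2.1 (ih' _))

theorem mat_sum (L : List (Lz V)) (x : V) : ∑ y, mat L x y = 1 := by
  unfold mat
  induction L generalizing x with
  | nil => simp
  | cons t L ih =>
    simp only [run1_cons, st1]
    rw [Finset.sum_add_distrib, ← Finset.mul_sum, ← Finset.mul_sum, ih, ih]; ring

theorem ent_bound {L : List (Lz V)} (hL : ∀ t ∈ L, t.Ok) :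
    ∑ x, ent (mat L x) ≤ 2 * log 2 * L.length := by
  induction L with
  | nil =>
    simp only [mat, run1_nil, ent, List.length_nil, Nat.cast_zero, mul_zero]
    apply le_of_eq
    apply Finset.sum_eq_zero; intro x _
    apply Finset.sum_eq_zero; intro y _
    split_ifs <;> simp
  | cons t L ih =>
    have h1 := hL t (by simp)
    have hL' : ∀ t ∈ L, t.Ok := fun s hs => hL s (by simp [hs])
    have ih' := ih hL'
    have hrow : ∀ x, mat (t :: L) x
        = fun y => (1 - t.p) * mat L x y + t.p * mat L (Equiv.swap t.a t.b x) y := by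
      intro x; ext y; rfl
    have hab : t.a ≠ t.b := h1.1
    -- rows other than `a`, `b` do not change
    have hother : ∀ x, x ≠ t.a → x ≠ t.b → ent (mat (t :: L) x) = ent (mat L x) := by
      intro x hx hx'
      rw [hrow, Equiv.swap_apply_of_ne_of_ne hx hx']
      congr 1; ext y; ring
    have ha : ent (mat (t :: L) t.a) ≤ (1 - t.p) * ent (mat L t.a) + t.p * ent (mat L t.b) + log 2 := by
      rw [hrow, Equiv.swap_apply_left]
      exact ent_mix h1.2.1 h1.2.2 (mat_nonneg hL' _) (mat_nonneg hL' _) (mat_sum _ _) (mat_sum _ _)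
    have hb : ent (mat (t :: L) t.b) ≤ (1 - t.p) * ent (mat L t.b) + t.p * ent (mat L t.a) + log 2 := by
      rw [hrow, Equiv.swap_apply_right]
      exact ent_mix h1.2.1 h1.2.2 (mat_nonneg hL' _) (mat_nonneg hL' _) (mat_sum _ _) (mat_sum _ _)
    have split : ∀ G : V → ℝ, ∑ x, G x = G t.a + (G t.b + ∑ x ∈ (univ.erase t.a).erase t.b, G x) := by
      intro G
      rw [← Finset.add_sum_erase _ _ (mem_univ t.a),
        ← Finset.add_sum_erase _ _ (Finset.mem_erase.2 ⟨hab.symm, mem_univ t.b⟩)]
    rw [split] at ih' ⊢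
    have hsum : ∑ x ∈ (univ.erase t.a).erase t.b, ent (mat (t :: L) x)
        = ∑ x ∈ (univ.erase t.a).erase t.b, ent (mat L x) := by
      apply Finset.sum_congr rfl
      intro x hx
      rw [Finset.mem_erase, Finset.mem_erase] at hx
      exact hother x hx.2.1 hx.1
    rw [hsum]
    simp only [List.length_cons, Nat.cast_add, Nat.cast_one]
    linarith

/-- the lower bound for a list that makes every point uniform -/
theorem lower {L : List (Lz V)} (hL : ∀ t ∈ L, t.Ok)
    (hU : ∀ x y, mat L x y = 1 / (Fintype.card V : ℝ)) :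
    (Fintype.card V : ℝ) * logb 2 (Fintype.card V) / 2 ≤ L.length := by
  have h := ent_bound hL
  rcases Nat.eq_zero_or_pos (Fintype.card V) with h0 | h0
  · rw [h0]; simp
  have hc : (0 : ℝ) < Fintype.card V := by exact_mod_cast h0
  have h1 : ∑ x : V, ent (mat L x) = Fintype.card V * log (Fintype.card V) := by
    simp only [ent, hU, sum_const, card_univ, nsmul_eq_mul]
    congr 1
    simp only [negMulLog, one_div, log_inv]
    field_simp
  rw [h1] at h
  have hl2 : 0 < log 2 := log_pos (by norm_num)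
  rw [logb, mul_div_assoc', div_div, div_le_iff₀ (by positivity)]
  linarith

end Pool.Agent.NH92.Shuf
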