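import Pool.Agent.NH92.Shuf.PassRec
import Pool.Agent.NH92.Shuf.Cross2

/-!
The shuffle of `4 ^ k` points.
-/

namespace Pool.Agent.NH92.Shuf

open Finset Pass

namespace Cross

variable {F : Type} [Field F] [DecidableEq F] [Fintype F] [CharP F 2]

set_option linter.unusedSectionVars false

theorem gb_ne (z : F) : gb z ≠ 0 := by
  unfold gb; split_ifs with h
  · exact one_ne_zero
  · exact h

theorem ga_ne (z : F) : ga z ≠ 0 := by
  unfold ga; split_ifs with h
  · exact one_ne_zero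
  · exact pow_ne_zero 2 h

/-- labels of the first tree to positions -/
def e1 : (F × F) ≃ (F × F) where
  toFun x := (x.1, x.2 / gb x.1)
  invFun x := (x.1, x.2 * gb x.1)
  left_inv x := by simp [gb_ne]
  right_inv x := by simp [gb_ne]

/-- labels of the second tree to positions -/
def e2 : (F × F) ≃ (F × F) where
  toFun x := (x.2 / ga x.1, x.1)
  invFun x := (x.2, x.1 * ga x.2)
  left_inv x := by simp [ga_ne]
  right_inv x := by simp [ga_ne]

/-- division by a nonzero element -/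
def divE (c : F) (hc : c ≠ 0) : F ≃ F where
  toFun x := x / c
  invFun x := x * c
  left_inv x := by simp [hc]
  right_inv x := by simp [hc]

theorem passE {L : List (Lz (F × F))} (hL : QE F F L) (h : F × F → F × F → ℝ) (c : ℝ)
    (h1 : ∀ d : F, d ≠ 0 → ∑ z, ∑ v, ∑ v', h (z, v) (z + d, v') = c * qq F ^ 3)
    (h2 : ∀ d : F, d ≠ 0 → ∑ z, ∑ v, h (z, v) (z, v + d / gb z) = c * qq F ^ 2)
    {x y : F × F} (hxy : x ≠ y) : run (L.map (Lz.map e1.toEmbedding)) h x y = c := by
  obtain ⟨x, rfl⟩ := e1.surjective x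
  obtain ⟨y, rfl⟩ := e1.surjective y
  have h0 := run_map e1.toEmbedding L h x y
  rw [Equiv.coe_toEmbedding] at h0
  rw [h0]
  apply hL.avg _ c
  · intro z hz
    have h3 := h1 z hz
    have : c * ((Fintype.card F : ℝ) * (Fintype.card F * Fintype.card F)) = c * qq F ^ 3 := by
      unfold qq; ring
    rw [this, ← h3]
    apply Finset.sum_congr rfl; intro o _
    rw [← Equiv.sum_comp (divE (gb o) (gb_ne o)) (fun v => ∑ v', h (o, v) (o + z, v'))]
    apply Finset.sum_congr rfl; intro i _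
    rw [← Equiv.sum_comp (divE (gb (o + z)) (gb_ne (o + z)))
      (fun v' => h (o, (divE (gb o) (gb_ne o)) i) (o + z, v'))]
    rfl
  · intro d hd
    have h3 := h2 d hd
    have : c * ((Fintype.card F : ℝ) * Fintype.card F) = c * qq F ^ 2 := by
      unfold qq; ring
    rw [this, ← h3]
    apply Finset.sum_congr rfl; intro o _
    rw [← Equiv.sum_comp (divE (gb o) (gb_ne o)) (fun v => h (o, v) (o, v + d / gb o))]
    apply Finset.sum_congr rfl; intro i _
    simp only [e1, Equiv.coe_fn_mk, divE, add_div]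
  · exact fun h' => hxy (by rw [h'])

theorem passF {L : List (Lz (F × F))} (hL : QF F F L) (f : F × F → F × F → ℝ) :
    ∃ g k : F → ℝ, ∀ x y, x ≠ y → run (L.map (Lz.map e2.toEmbedding)) f x y = f0 g k x y := by
  obtain ⟨g, k, hgk⟩ := hL.cls (fun a b => f (e2 a) (e2 b))
  refine ⟨g, k, ?_⟩
  intro x y hxy
  obtain ⟨x, rfl⟩ := e2.surjective x
  obtain ⟨y, rfl⟩ := e2.surjective y
  have h0 := run_map e2.toEmbedding L f x y
  rw [Equiv.coe_toEmbedding] at h0
  rw [h0, hgk x y (fun h' => hxy (by rw [h']))]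
  obtain ⟨o, i⟩ := x
  obtain ⟨o', i'⟩ := y
  simp only [f0, e2, Equiv.coe_fn_mk]
  by_cases h : o = o'
  · subst h
    simp only [ne_eq, not_true_eq_false, if_false]
    congr 1
    have := ga_ne o
    field_simp
  · simp only [ne_eq, h, not_false_eq_true, if_true]

theorem exists_pp {q : ℝ} (hq : 2 ≤ q) :
    ∃ p : ℝ, 0 ≤ p ∧ p ≤ 1 ∧ (q - 2) * p ^ 2 + 4 * p = q ^ 2 / (q + 1) := by
  let G : ℝ → ℝ := fun p => (q - 2) * p ^ 2 + 4 * p
  have hG : Continuous G := by fun_prop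
  obtain ⟨p, ⟨h0, h1⟩, hp⟩ : q ^ 2 / (q + 1) ∈ G '' Set.Icc 0 1 := by
    apply intermediate_value_Icc zero_le_one hG.continuousOn
    constructor
    · have : G 0 = 0 := by simp [G]
      rw [this]; positivity
    · have : G 1 = q + 2 := by simp only [G]; ring
      rw [this, div_le_iff₀ (by linarith)]; nlinarith
  exact ⟨p, h0, h1, hp⟩

theorem lam_ok {p : ℝ} (h0 : 0 ≤ p) (h1 : p ≤ 1) : ∀ t ∈ Lam F p, t.Ok := by
  intro t ht
  rw [Lam, List.mem_map] at ht
  obtain ⟨x, hx, rfl⟩ := ht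
  rw [mem_RC] at hx
  refine ⟨?_, h0, h1⟩
  simp only [mk]
  intro h
  have := RC_tau x ((mem_RC x).2 hx)
  rw [← h] at this
  exact this ((mem_RC x).2 hx)

theorem len_lam (p : ℝ) : (Lam F p).length = Fintype.card F - 1 := by
  simp only [Lam, RC, List.length_map, Finset.length_toList]
  rw [Finset.filter_ne' univ (0 : F), Finset.card_erase_of_mem (mem_univ _), card_univ]

/-- the whole construction -/
theorem main_sh {LE LF LV LH : List (Lz (F × F))} (hE : QE F F LE) (hF : QF F F LF)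
    (hV : Sh (AV F) LV) (hH : Sh (AH F) LH) {p : ℝ} (h0 : 0 ≤ p) (h1 : p ≤ 1)
    (hp : (qq F - 2) * p ^ 2 + 4 * p = qq F ^ 2 / (qq F + 1)) :
    Sh (univ : Finset (F × F)) (LE.map (Lz.map e1.toEmbedding) ++
      (Lam F p ++ ((LV ++ LH) ++ LF.map (Lz.map e2.toEmbedding)))) := by
  apply Sh.of_const
  · rw [card_univ, Fintype.card_prod]
    have : 1 < Fintype.card F := Fintype.one_lt_card
    nlinarith
  · intro t ht
    simp only [List.mem_append] at ht
    rcases ht with ht | ht | (ht | ht) | ht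
    · exact ok_map hE.ok _ t ht
    · exact lam_ok h0 h1 t ht
    · exact hV.ok t ht
    · exact hH.ok t ht
    · exact ok_map hF.ok _ t ht
  · exact Ext.on_univ _
  · intro f
    obtain ⟨g, k, hgk⟩ := passF hF f
    refine ⟨S g / (qq F - 1) + (S k / (qq F - 1) - S g / (qq F - 1)) / (qq F + 1), ?_⟩
    intro x _ y _ hxy
    rw [run_append, run_append, run_append]
    have s1 : ∀ x y : F × F, x ≠ y →
        run (LV ++ LH) (run (LF.map (Lz.map e2.toEmbedding)) f) x y = F1 g k x y := by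
      intro x y hxy
      rw [run_congr hgk hxy, f1_eq hV hH g k hxy]
    have s2 : ∀ x y : F × F, x ≠ y →
        run (Lam F p) (run (LV ++ LH) (run (LF.map (Lz.map e2.toEmbedding)) f)) x y
          = HH p g k x y := by
      intro x y hxy
      rw [run_congr s1 hxy, lam_eq p g k hxy]
    rw [run_congr s2 hxy]
    exact passE hE _ _ (fun d hd => outer_sum p g k hd hp) (fun d hd => inner_sum p g k hd hp) hxy

end Cross

/-- sets of size a power of two -/
theorem TB_pow (j : ℕ) : ∃ l, 2 * l + 2 ^ j = 4 ^ j ∧ TB (2 ^ j) l := by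
  induction j with
  | zero => exact ⟨0, by norm_num, TB.zero_or_one (by norm_num)⟩
  | succ j ih =>
    obtain ⟨l, h1, h2⟩ := ih
    refine ⟨4 * l + 2 ^ j, ?_, ?_⟩
    · have : (4 : ℕ) ^ (j + 1) = 4 * 4 ^ j := by ring
      rw [this, ← h1]; ring
    · have h3 : TB (2 ^ j + 0) l := h2
      have h4 := h3.ext
      have : 2 * 2 ^ j + 0 = 2 ^ (j + 1) := by ring
      rwa [this] at h4

theorem TB_pow_sub (j : ℕ) : ∃ l, l + 2 ^ j + 1 = 2 * 4 ^ j ∧ TB (2 ^ (j + 1) - 1) l := by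
  obtain ⟨l, h1, h2⟩ := TB_pow j
  have hpos : 1 ≤ 2 ^ j := Nat.one_le_two_pow
  refine ⟨4 * l + (2 ^ j - 1), by omega, ?_⟩
  have h3 : TB ((2 ^ j - 1) + 1) l := by
    rw [Nat.sub_add_cancel hpos]; exact h2
  have h4 := h3.ext
  have : 2 * (2 ^ j - 1) + 1 = 2 ^ (j + 1) - 1 := by
    have : 2 ^ (j + 1) = 2 * 2 ^ j := by ring
    omega
  rwa [this] at h4

theorem TB_four_pow (k : ℕ) : TB (4 ^ k) ((2 * k + 1) * 4 ^ k) := by
  rcases Nat.eq_zero_or_pos k with h0 | h0
  · subst h0; exact (TB.zero_or_one (by norm_num)).mono (by norm_num)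
  obtain ⟨j, rfl⟩ : ∃ j, k = j + 1 := ⟨k - 1, by omega⟩
  classical
  have : Fact (Nat.Prime 2) := ⟨Nat.prime_two⟩
  let F := GaloisField 2 (j + 1)
  have : Fintype F := Fintype.ofFinite F
  have hcard : Fintype.card F = 2 ^ (j + 1) := by
    rw [← Nat.card_eq_fintype_card]; exact GaloisField.card 2 (j + 1) (by omega)
  have hfin : Module.finrank (ZMod 2) F = j + 1 := GaloisField.finrank 2 (by omega)
  let φ : (Fin (j + 1) → ZMod 2) ≃+ F :=
    (Module.finBasisOfFinrankEq (ZMod 2) F hfin).equivFun.symm.toAddEquiv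
  obtain ⟨LE, hE, lE⟩ := exists_QE (j + 1) φ
  obtain ⟨LF, hF, lF⟩ := exists_QF (j + 1) φ
  obtain ⟨l, hl, hT⟩ := TB_pow_sub j
  have cV : #(Cross.AV F) = 2 ^ (j + 1) - 1 := by
    have := Cross.cardAV (F := F)
    have h1 : (1 : ℕ) ≤ 2 ^ (j + 1) := Nat.one_le_two_pow
    have h2 : ((2 ^ (j + 1) - 1 : ℕ) : ℝ) = (Fintype.card F : ℝ) - 1 := by
      rw [hcard]; push_cast [h1]; ring
    rw [← h2] at this
    exact_mod_cast this
  have cH : #(Cross.AH F) = 2 ^ (j + 1) - 1 := by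
    have := Cross.cardAH (F := F)
    have h1 : (1 : ℕ) ≤ 2 ^ (j + 1) := Nat.one_le_two_pow
    have h2 : ((2 ^ (j + 1) - 1 : ℕ) : ℝ) = (Fintype.card F : ℝ) - 1 := by
      rw [hcard]; push_cast [h1]; ring
    rw [← h2] at this
    exact_mod_cast this
  obtain ⟨LV, lV, hV⟩ := hT (F × F) (Cross.AV F) cV
  obtain ⟨LH, lH, hH⟩ := hT (F × F) (Cross.AH F) cH
  obtain ⟨p, h0, h1, hp⟩ := Cross.exists_pp (Cross.qq_ge (F := F))
  have key := Cross.main_sh hE hF hV hH h0 h1 hp
  refine TB.of_type ?_ ?_ key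
  · rw [Fintype.card_prod, hcard, ← mul_pow]; norm_num
  · simp only [List.length_append, List.length_map, Cross.len_lam, lE, lF, hcard]
    have e1 : (4 : ℕ) ^ (j + 1) = 4 * 4 ^ j := by ring
    have e2 : 2 ^ (j + 1) = 2 * 2 ^ j := by ring
    have e3 : (2 * (j + 1) + 1) * 4 ^ (j + 1) = 2 * ((j + 1) * 4 ^ (j + 1)) + 4 * 4 ^ j := by ring
    rw [e3]
    omega

end Pool.Agent.NH92.Shuf
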