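import Pool.Agent.NH92.Shuf.Basic

/-!
The effect of a family of disjoint lazy transpositions.
-/

namespace Pool.Agent.NH92.Shuf

open Finset

variable {V : Type*} [DecidableEq V]

/-- the lazy transposition of `r` and its partner -/
def mk (τ : V → V) (P : V → ℝ) (r : V) : Lz V := ⟨r, τ r, P r⟩

/-- the probability with which `x` is exchanged with its partner -/
noncomputable def tp (τ : V → V) (P : V → ℝ) (R : List V) (x : V) : ℝ :=
  if x ∈ R ∨ τ x ∈ R then P x else 0

theorem tp_cons_eq {τ : V → V} (hτ : ∀ x, τ (τ x) = x) {P : V → ℝ} {r : V} {R : List V} {x : V}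
    (h : x = r ∨ x = τ r) : tp τ P (r :: R) x = P x := by
  unfold tp
  rw [if_pos]
  rcases h with h | h
  · left; simp [h]
  · right; simp [h, hτ]

theorem tp_cons_ne {τ : V → V} (hτ : ∀ x, τ (τ x) = x) {P : V → ℝ} {r : V} {R : List V} {x : V}
    (h : x ≠ r) (h' : x ≠ τ r) : tp τ P (r :: R) x = tp τ P R x := by
  unfold tp
  have h1 : τ x ≠ r := fun h2 => h' (by rw [← h2, hτ])
  simp [h, h1]

theorem tp_tail {τ : V → V} (hτ : ∀ x, τ (τ x) = x) {P : V → ℝ} {r : V} {R : List V}
    (hr : r ∉ R) (hr' : τ r ∉ R) {x : V} (h : x = r ∨ x = τ r) : tp τ P R x = 0 := by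
  unfold tp
  rw [if_neg]
  rcases h with h | h
  · subst h; simp [hr, hr']
  · subst h; simp [hτ, hr, hr']

theorem match1 {τ : V → V} (hτ : ∀ x, τ (τ x) = x) {P : V → ℝ} (hP : ∀ x, P (τ x) = P x)
    {R : List V} (hR : R.Nodup) (h : ∀ r ∈ R, τ r ∉ R) (g : V → ℝ) (x : V) :
    run1 (R.map (mk τ P)) g x = (1 - tp τ P R x) * g x + tp τ P R x * g (τ x) := by
  induction R generalizing x with
  | nil => simp [tp]
  | cons r R ih =>
    have hR' := (List.nodup_cons.1 hR).2
    have hr := (List.nodup_cons.1 hR).1
    have hr' : τ r ∉ R := fun h' => h r (by simp) (by simp [h'])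
    have hrr : τ r ≠ r := fun h' => h r (by simp) (by simp [h'])
    have ih' := ih hR' (fun s hs h' => h s (by simp [hs]) (by simp [h']))
    simp only [List.map_cons, run1_cons, st1]
    change (1 - P r) * run1 (R.map (mk τ P)) g x
      + P r * run1 (R.map (mk τ P)) g (Equiv.swap r (τ r) x) = _
    by_cases h1 : x = r
    · subst h1
      rw [Equiv.swap_apply_left, ih', ih', tp_cons_eq hτ (Or.inl rfl),
        tp_tail hτ hr hr' (Or.inl rfl), tp_tail hτ hr hr' (Or.inr rfl)]
      ring
    · by_cases h2 : x = τ r
      · subst h2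
        rw [Equiv.swap_apply_right, ih', ih', tp_cons_eq hτ (Or.inr rfl),
          tp_tail hτ hr hr' (Or.inl rfl), tp_tail hτ hr hr' (Or.inr rfl), hP, hτ]
        ring
      · rw [Equiv.swap_apply_of_ne_of_ne h1 h2, ih', tp_cons_ne hτ h1 h2]
        ring

theorem match2 {τ : V → V} (hτ : ∀ x, τ (τ x) = x) {P : V → ℝ} (hP : ∀ x, P (τ x) = P x)
    {R : List V} (hR : R.Nodup) (h : ∀ r ∈ R, τ r ∉ R) (f : V → V → ℝ) {x y : V} (hxy : x ≠ y) :
    run (R.map (mk τ P)) f x y =
      if y = τ x then (1 - tp τ P R x) * f x y + tp τ P R x * f y x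
      else (1 - tp τ P R x) * (1 - tp τ P R y) * f x y
        + tp τ P R x * (1 - tp τ P R y) * f (τ x) y
        + (1 - tp τ P R x) * tp τ P R y * f x (τ y)
        + tp τ P R x * tp τ P R y * f (τ x) (τ y) := by
  induction R generalizing x y with
  | nil => simp [tp]
  | cons r R ih =>
    have hR' := (List.nodup_cons.1 hR).2
    have hr := (List.nodup_cons.1 hR).1
    have hr' : τ r ∉ R := fun h' => h r (by simp) (by simp [h'])
    have hrr : τ r ≠ r := fun h' => h r (by simp) (by simp [h'])
    have ih' : ∀ {x y : V}, x ≠ y → _ :=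
      fun {x y} => @ih hR' (fun s hs h' => h s (by simp [hs]) (by simp [h'])) x y
    simp only [List.map_cons, run_cons, st]
    change (1 - P r) * run (R.map (mk τ P)) f x y
      + P r * run (R.map (mk τ P)) f (Equiv.swap r (τ r) x) (Equiv.swap r (τ r) y) = _
    by_cases hx : x = r ∨ x = τ r
    · have e1 : Equiv.swap r (τ r) x = τ x := by
        rcases hx with rfl | rfl
        · rw [Equiv.swap_apply_left]
        · rw [Equiv.swap_apply_right, hτ]
      have hPx : P x = P r := by
        rcases hx with rfl | rfl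
        · rfl
        · rw [hP]
      have hx' : τ x = r ∨ τ x = τ r := by
        rcases hx with rfl | rfl
        · right; rfl
        · left; rw [hτ]
      by_cases hy : y = r ∨ y = τ r
      · have e2 : y = τ x := by
          rcases hx with rfl | rfl <;> rcases hy with rfl | rfl
          · exact absurd rfl hxy
          · rfl
          · rw [hτ]
          · exact absurd rfl hxy
        have e3 : Equiv.swap r (τ r) y = x := by
          rw [e2]
          rcases hx with rfl | rfl
          · rw [Equiv.swap_apply_right]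
          · rw [hτ, Equiv.swap_apply_left]
        rw [e1, e3, ih' hxy, ih' (by rw [← e2]; exact hxy.symm), if_pos e2, if_pos e2,
          if_pos (by rw [hτ]), tp_cons_eq hτ hx, tp_tail hτ hr hr' hx, tp_tail hτ hr hr' hx', hPx,
          ← e2]
        ring
      · push Not at hy
        have e2 : Equiv.swap r (τ r) y = y := Equiv.swap_apply_of_ne_of_ne hy.1 hy.2
        have e3 : y ≠ τ x := by
          intro h'
          rcases hx' with h'' | h''
          · exact hy.1 (h'.trans h'')
          · exact hy.2 (h'.trans h'')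
        have e4 : y ≠ x := hxy.symm
        rw [e1, e2, ih' hxy, ih' e3.symm, if_neg e3, if_neg e3, if_neg (by rw [hτ]; exact e4),
          tp_cons_eq hτ hx, tp_cons_ne hτ hy.1 hy.2, tp_tail hτ hr hr' hx, tp_tail hτ hr hr' hx',
          hPx, hτ]
        ring
    · push Not at hx
      have e1 : Equiv.swap r (τ r) x = x := Equiv.swap_apply_of_ne_of_ne hx.1 hx.2
      by_cases hy : y = r ∨ y = τ r
      · have e2 : Equiv.swap r (τ r) y = τ y := by
          rcases hy with rfl | rfl
          · rw [Equiv.swap_apply_left]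
          · rw [Equiv.swap_apply_right, hτ]
        have hPy : P y = P r := by
          rcases hy with rfl | rfl
          · rfl
          · rw [hP]
        have hy' : τ y = r ∨ τ y = τ r := by
          rcases hy with rfl | rfl
          · right; rfl
          · left; rw [hτ]
        have e3 : x ≠ τ y := by
          intro h'
          rcases hy' with h'' | h''
          · exact hx.1 (h'.trans h'')
          · exact hx.2 (h'.trans h'')
        have e4 : y ≠ τ x := fun h' => e3 (by rw [h', hτ])
        have e5 : τ y ≠ τ x := fun h' => hxy (by rw [← hτ x, ← h', hτ])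
        rw [e1, e2, ih' hxy, ih' e3, if_neg e4, if_neg e4, if_neg e5,
          tp_cons_eq hτ hy, tp_cons_ne hτ hx.1 hx.2, tp_tail hτ hr hr' hy, tp_tail hτ hr hr' hy',
          hPy, hτ]
        ring
      · push Not at hy
        have e2 : Equiv.swap r (τ r) y = y := Equiv.swap_apply_of_ne_of_ne hy.1 hy.2
        rw [e1, e2, ih' hxy, tp_cons_ne hτ hx.1 hx.2, tp_cons_ne hτ hy.1 hy.2]
        ring

end Pool.Agent.NH92.Shuf
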