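import Pool.Agent.NH92.Shuf.Match

/-!
The two butterfly passes, by recursion on the number of outer bits.
-/

namespace Pool.Agent.NH92.Shuf

open Finset

namespace Pass

variable {W : Type*} [DecidableEq W] [Fintype W]

theorem z2 (e : ZMod 2) : e = 0 ∨ e = 1 := by
  revert e; decide

/-- partner in the top stage -/
def ta (x : ZMod 2 × W) : ZMod 2 × W := (x.1 + 1, x.2)

noncomputable def RR (W : Type*) [Fintype W] : List (ZMod 2 × W) :=
  (univ : Finset W).toList.map (fun w => (0, w))

noncomputable def topL (W : Type*) [Fintype W] : List (Lz (ZMod 2 × W)) :=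
  (RR W).map (mk ta (fun _ => 1 / 2))

omit [DecidableEq W] [Fintype W] in
theorem ta_ta (x : ZMod 2 × W) : ta (ta x) = x := by
  rcases x with ⟨e, w⟩
  simp only [ta, Prod.mk.injEq, and_true]
  rcases z2 e with rfl | rfl <;> rfl

omit [DecidableEq W] in
theorem mem_RR (x : ZMod 2 × W) : x ∈ RR W ↔ x.1 = 0 := by
  simp only [RR, List.mem_map, Finset.mem_toList, mem_univ, true_and]
  constructor
  · rintro ⟨w, rfl⟩; rfl
  · intro h; exact ⟨x.2, by rw [← h]⟩

omit [DecidableEq W] in
theorem RR_nodup : (RR W).Nodup := by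
  unfold RR
  apply List.Nodup.map
  · intro i j h; simpa using h
  · exact Finset.nodup_toList _

omit [DecidableEq W] in
theorem RR_ta (x : ZMod 2 × W) (hx : x ∈ RR W) : ta x ∉ RR W := by
  rw [mem_RR] at hx ⊢
  simp [ta, hx]

theorem tp_top (x : ZMod 2 × W) : tp ta (fun _ => 1 / 2) (RR W) x = 1 / 2 := by
  unfold tp
  rw [if_pos]
  rw [mem_RR, mem_RR]
  rcases z2 x.1 with h | h
  · left; exact h
  · right; simp only [ta, h]; rfl

theorem top1 (g : ZMod 2 × W → ℝ) (e : ZMod 2) (w : W) :
    run1 (topL W) g (e, w) = (g (0, w) + g (1, w)) / 2 := by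
  rw [topL, match1 ta_ta (fun _ => rfl) RR_nodup RR_ta, tp_top]
  rcases z2 e with rfl | rfl
  · simp only [ta, zero_add]; ring
  · have : (1 : ZMod 2) + 1 = 0 := rfl
    simp only [ta, this]; ring

theorem top_ne (f : ZMod 2 × W → ZMod 2 × W → ℝ) (e e' : ZMod 2) {w w' : W} (h : w ≠ w') :
    run (topL W) f (e, w) (e', w')
      = (f (0, w) (0, w') + f (0, w) (1, w') + f (1, w) (0, w') + f (1, w) (1, w')) / 4 := by
  have hne : ((e, w) : ZMod 2 × W) ≠ (e', w') := fun h' => h (Prod.ext_iff.1 h').2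
  have hne' : ((e', w') : ZMod 2 × W) ≠ ta (e, w) := fun h' => h (Prod.ext_iff.1 h').2.symm
  rw [topL, match2 ta_ta (fun _ => rfl) RR_nodup RR_ta f hne, if_neg hne', tp_top, tp_top]
  have h2 : (1 : ZMod 2) + 1 = 0 := rfl
  rcases z2 e with rfl | rfl <;> rcases z2 e' with rfl | rfl <;>
    simp only [ta, zero_add, h2] <;> ring

theorem top_eq (f : ZMod 2 × W → ZMod 2 × W → ℝ) {e e' : ZMod 2} (h : e ≠ e') (w : W) :
    run (topL W) f (e, w) (e', w) = (f (e, w) (e', w) + f (e', w) (e, w)) / 2 := by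
  have hne : ((e, w) : ZMod 2 × W) ≠ (e', w) := fun h' => h (Prod.ext_iff.1 h').1
  have h2 : (1 : ZMod 2) + 1 = 0 := rfl
  have hne' : ((e', w) : ZMod 2 × W) = ta (e, w) := by
    rcases z2 e with rfl | rfl <;> rcases z2 e' with rfl | rfl
    · exact absurd rfl h
    · simp only [ta, zero_add]
    · simp only [ta, h2]
    · exact absurd rfl h
  rw [topL, match2 ta_ta (fun _ => rfl) RR_nodup RR_ta f hne, if_pos hne', tp_top]
  ring

/-- inclusion of a half -/
def inj (W : Type*) (e : ZMod 2) : W ↪ ZMod 2 × W := ⟨fun w => (e, w), fun a b h => by simpa using h⟩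

/-- the same list on both halves -/
def hal (L : List (Lz W)) : List (Lz (ZMod 2 × W)) :=
  L.map (Lz.map (inj W 0)) ++ L.map (Lz.map (inj W 1))

def side (W : Type*) [Fintype W] (e : ZMod 2) : Finset (ZMod 2 × W) := univ.map (inj W e)

omit [DecidableEq W] in
theorem on_side (L : List (Lz W)) (e : ZMod 2) : On (side W e) (L.map (Lz.map (inj W e))) := by
  intro t ht
  obtain ⟨s, hs, rfl⟩ := List.mem_map.1 ht
  exact ⟨mem_map_of_mem _ (mem_univ _), mem_map_of_mem _ (mem_univ _)⟩

omit [DecidableEq W] in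
theorem not_mem_side {e e' : ZMod 2} (h : e ≠ e') (w : W) : ((e, w) : ZMod 2 × W) ∉ side W e' := by
  simp only [side, Finset.mem_map, mem_univ, true_and, not_exists]
  intro a ha
  exact h (Prod.ext_iff.1 ha).1.symm

theorem hal1 (L : List (Lz W)) (g : ZMod 2 × W → ℝ) (e : ZMod 2) (w : W) :
    run1 (hal L) g (e, w) = run1 L (fun a => g (e, a)) w := by
  rw [hal, run1_append]
  have h01 : (0 : ZMod 2) ≠ 1 := by decide
  rcases z2 e with rfl | rfl
  · have h1 := run1_map (inj W 0) L (run1 (L.map (Lz.map (inj W 1))) g) w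
    have h2 : ∀ a, run1 (L.map (Lz.map (inj W 1))) g (inj W 0 a) = g (0, a) :=
      fun a => run1_off (on_side L 1) g (not_mem_side h01 a)
    simp only [h2] at h1
    exact h1
  · rw [run1_off (on_side L 0) _ (not_mem_side h01.symm w)]
    exact run1_map (inj W 1) L g w

theorem hal_same (L : List (Lz W)) (f : ZMod 2 × W → ZMod 2 × W → ℝ) (e : ZMod 2) (w w' : W) :
    run (hal L) f (e, w) (e, w') = run L (fun a b => f (e, a) (e, b)) w w' := by
  rw [hal, run_append]
  have h01 : (0 : ZMod 2) ≠ 1 := by decide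
  rcases z2 e with rfl | rfl
  · have h1 := run_map (inj W 0) L (run (L.map (Lz.map (inj W 1))) f) w w'
    have h2 : ∀ a b, run (L.map (Lz.map (inj W 1))) f (inj W 0 a) (inj W 0 b) = f (0, a) (0, b) :=
      fun a b => run_off (on_side L 1) f (not_mem_side h01 a) (not_mem_side h01 b)
    simp only [h2] at h1
    exact h1
  · rw [run_off (on_side L 0) _ (not_mem_side h01.symm w) (not_mem_side h01.symm w')]
    exact run_map (inj W 1) L f w w'

theorem hal_01 (L : List (Lz W)) (f : ZMod 2 × W → ZMod 2 × W → ℝ) (w w' : W) :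
    run (hal L) f (0, w) (1, w') = run1 L (fun a => run1 L (fun b => f (0, a) (1, b)) w') w := by
  rw [hal, run_append]
  have h01 : (0 : ZMod 2) ≠ 1 := by decide
  rw [run_off_right (on_side L 0) _ (not_mem_side h01.symm w')]
  have h1 := run1_map (inj W 0) L (fun a => run (L.map (Lz.map (inj W 1))) f a (1, w')) w
  have h2 : ∀ a, run (L.map (Lz.map (inj W 1))) f (inj W 0 a) (1, w')
      = run1 L (fun b => f (0, a) (1, b)) w' := by
    intro a
    change run (L.map (Lz.map (inj W 1))) f (0, a) (1, w') = _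
    rw [run_off_left (on_side L 1) _ (not_mem_side h01 a)]
    exact run1_map (inj W 1) L (f (0, a)) w'
  simp only [h2] at h1
  exact h1

theorem hal_10 (L : List (Lz W)) (f : ZMod 2 × W → ZMod 2 × W → ℝ) (w w' : W) :
    run (hal L) f (1, w) (0, w') = run1 L (fun a => run1 L (fun b => f (1, b) (0, a)) w) w' := by
  rw [← run_flip, hal_01]

/-- single point uniformity -/
def Uni (L : List (Lz W)) : Prop :=
  ∀ (g : W → ℝ) (x : W), run1 L g x = (∑ u, g u) / (Fintype.card W : ℝ)

theorem uni_E {L : List (Lz W)} (h : Uni L) : Uni (topL W ++ hal L) := by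
  rintro g ⟨e, w⟩
  rw [run1_append, top1, hal1, hal1, h, h, Fintype.sum_prod_type, Fintype.card_prod]
  have : (univ : Finset (ZMod 2)) = {0, 1} := rfl
  rw [this, Finset.sum_pair (by decide)]
  simp only [ZMod.card]
  push_cast
  rw [← add_div, div_div]; ring

theorem uni_E' {L : List (Lz W)} (h : Uni L) : Uni (hal L ++ topL W) := by
  rintro g ⟨e, w⟩
  rw [run1_append, hal1, h, Fintype.sum_prod_type, Fintype.card_prod]
  have : (univ : Finset (ZMod 2)) = {0, 1} := rfl
  rw [this, Finset.sum_pair (by decide)]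
  simp only [top1, ZMod.card]
  rw [← Finset.sum_div, Finset.sum_add_distrib]
  push_cast
  rw [div_div]

/-- the cross averages -/
theorem hal_01_uni {L : List (Lz W)} (h : Uni L) (f : ZMod 2 × W → ZMod 2 × W → ℝ) (w w' : W) :
    run (hal L) f (0, w) (1, w')
      = (∑ a, ∑ b, f (0, a) (1, b)) / ((Fintype.card W : ℝ) * Fintype.card W) := by
  rw [hal_01]
  simp only [h (fun b => f (0, _) (1, b))]
  rw [h, ← Finset.sum_div, div_div]

theorem hal_10_uni {L : List (Lz W)} (h : Uni L) (f : ZMod 2 × W → ZMod 2 × W → ℝ) (w w' : W) :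
    run (hal L) f (1, w) (0, w')
      = (∑ a, ∑ b, f (1, a) (0, b)) / ((Fintype.card W : ℝ) * Fintype.card W) := by
  rw [hal_10]
  simp only [h (fun b => f (1, b) (0, _))]
  rw [h, ← Finset.sum_div, div_div, Finset.sum_comm]

variable {O I O' I' : Type} [AddCommGroup O] [AddCommGroup I] [DecidableEq O] [DecidableEq I]
  [Fintype O] [Fintype I] [AddCommGroup O'] [AddCommGroup I'] [DecidableEq O'] [DecidableEq I']
  [Fintype O'] [Fintype I']

/-- the property of the pass with the top bits first -/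
structure QE (O I : Type) [AddCommGroup O] [AddCommGroup I] [DecidableEq O] [DecidableEq I]
    [Fintype O] [Fintype I] (L : List (Lz (O × I))) : Prop where
  ok : ∀ t ∈ L, t.Ok
  uni : Uni L
  avg : ∀ (h : O × I → O × I → ℝ) (c : ℝ),
    (∀ z : O, z ≠ 0 → ∑ o, ∑ i, ∑ i', h (o, i) (o + z, i')
      = c * (Fintype.card O * (Fintype.card I * Fintype.card I))) →
    (∀ d : I, d ≠ 0 → ∑ o, ∑ i, h (o, i) (o, i + d)
      = c * (Fintype.card O * Fintype.card I)) →
    ∀ x y, x ≠ y → run L h x y = c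

/-- the property of the pass with the bottom bits first -/
structure QF (O I : Type) [AddCommGroup O] [AddCommGroup I] [DecidableEq O] [DecidableEq I]
    [Fintype O] [Fintype I] (L : List (Lz (O × I))) : Prop where
  ok : ∀ t ∈ L, t.Ok
  uni : Uni L
  cls : ∀ (f : O × I → O × I → ℝ), ∃ (g : O → ℝ) (k : I → ℝ), ∀ x y, x ≠ y →
    run L f x y = if x.1 ≠ y.1 then g (x.1 + y.1) else k (x.2 + y.2)

theorem uni_map {U W : Type*} [DecidableEq U] [Fintype U] [DecidableEq W] [Fintype W]
    {L : List (Lz U)} (h : Uni L) (e : U ≃ W) : Uni (L.map (Lz.map e.toEmbedding)) := by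
  intro g x
  obtain ⟨x, rfl⟩ := e.surjective x
  have := run1_map e.toEmbedding L g x
  rw [Equiv.coe_toEmbedding] at this
  rw [this, h, Fintype.card_congr e, Equiv.sum_comp e g]

theorem ok_map {U W : Type*} {L : List (Lz U)} (h : ∀ t ∈ L, t.Ok) (e : U ↪ W) :
    ∀ t ∈ L.map (Lz.map e), t.Ok := by
  intro t ht
  obtain ⟨s, hs, rfl⟩ := List.mem_map.1 ht
  exact (h s hs).map e

theorem ok_top (W : Type*) [Fintype W] : ∀ t ∈ topL W, t.Ok := by
  intro t ht
  rw [topL, List.mem_map] at ht
  obtain ⟨x, hx, rfl⟩ := ht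
  refine ⟨?_, by norm_num [mk], by norm_num [mk]⟩
  simp only [mk, ta, ne_eq]
  intro h
  have := (Prod.ext_iff.1 h).1
  simp at this

theorem ok_hal {W : Type*} {L : List (Lz W)} (h : ∀ t ∈ L, t.Ok) : ∀ t ∈ hal L, t.Ok := by
  intro t ht
  rw [hal, List.mem_append] at ht
  rcases ht with ht | ht
  · exact ok_map h _ t ht
  · exact ok_map h _ t ht

/-- transport along additive equivalences -/
theorem QE.map {L : List (Lz (O × I))} (h : QE O I L) (eO : O ≃+ O') (eI : I ≃+ I') :
    QE O' I' (L.map (Lz.map (eO.toEquiv.prodCongr eI.toEquiv).toEmbedding)) := by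
  refine ⟨ok_map h.ok _, uni_map h.uni _, ?_⟩
  intro f c h1 h2 x y hxy
  set e := eO.toEquiv.prodCongr eI.toEquiv with he
  have hc1 : Fintype.card O = Fintype.card O' := Fintype.card_congr eO.toEquiv
  have hc2 : Fintype.card I = Fintype.card I' := Fintype.card_congr eI.toEquiv
  obtain ⟨x, rfl⟩ := e.surjective x
  obtain ⟨y, rfl⟩ := e.surjective y
  have := run_map e.toEmbedding L f x y
  rw [Equiv.coe_toEmbedding] at this
  rw [this]
  apply h.avg _ c
  · intro z hz
    rw [hc1, hc2, ← h1 (eO z) (by simpa using hz)]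
    rw [← Equiv.sum_comp eO.toEquiv]
    apply Finset.sum_congr rfl; intro o _
    rw [← Equiv.sum_comp eI.toEquiv]
    apply Finset.sum_congr rfl; intro i _
    rw [← Equiv.sum_comp eI.toEquiv]
    apply Finset.sum_congr rfl; intro i' _
    simp [he]
  · intro d hd
    rw [hc1, hc2, ← h2 (eI d) (by simpa using hd)]
    rw [← Equiv.sum_comp eO.toEquiv]
    apply Finset.sum_congr rfl; intro o _
    rw [← Equiv.sum_comp eI.toEquiv]
    apply Finset.sum_congr rfl; intro i _
    simp [he]
  · exact fun h' => hxy (by rw [h'])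

theorem QF.map {L : List (Lz (O × I))} (h : QF O I L) (eO : O ≃+ O') (eI : I ≃+ I') :
    QF O' I' (L.map (Lz.map (eO.toEquiv.prodCongr eI.toEquiv).toEmbedding)) := by
  refine ⟨ok_map h.ok _, uni_map h.uni _, ?_⟩
  intro f
  set e := eO.toEquiv.prodCongr eI.toEquiv with he
  obtain ⟨g, k, hgk⟩ := h.cls (fun a b => f (e a) (e b))
  refine ⟨fun o => g (eO.symm o), fun i => k (eI.symm i), ?_⟩
  intro x y hxy
  obtain ⟨x, rfl⟩ := e.surjective x
  obtain ⟨y, rfl⟩ := e.surjective y
  have := run_map e.toEmbedding L f x y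
  rw [Equiv.coe_toEmbedding] at this
  rw [this, hgk x y (fun h' => hxy (by rw [h']))]
  simp [he]

theorem sum_z2 (F : ZMod 2 → ℝ) : ∑ e, F e = F 0 + F 1 := by
  have : (univ : Finset (ZMod 2)) = {0, 1} := rfl
  rw [this, Finset.sum_pair (by decide)]

theorem QE.step {L : List (Lz (O × I))} (hL : QE O I L) :
    QE (ZMod 2 × O) I
      ((topL (O × I) ++ hal L).map (Lz.map (Equiv.prodAssoc (ZMod 2) O I).symm.toEmbedding)) := by
  refine ⟨ok_map ?_ _, uni_map (uni_E hL.uni) _, ?_⟩
  · intro t ht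
    rw [List.mem_append] at ht
    rcases ht with ht | ht
    · exact ok_top _ t ht
    · exact ok_hal hL.ok t ht
  intro f c h1 h2 x y hxy
  set e := (Equiv.prodAssoc (ZMod 2) O I).symm with he
  obtain ⟨x, rfl⟩ := e.surjective x
  obtain ⟨y, rfl⟩ := e.surjective y
  have h0 := run_map e.toEmbedding (topL (O × I) ++ hal L) f x y
  rw [Equiv.coe_toEmbedding] at h0
  rw [h0, run_append]
  have hxy' : x ≠ y := fun h' => hxy (by rw [h'])
  let h : ZMod 2 × (O × I) → ZMod 2 × (O × I) → ℝ := fun a b => f (e a) (e b)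
  change run (topL (O × I)) (run (hal L) h) x y = c
  have hO : (0 : ℝ) < Fintype.card O := by exact_mod_cast Fintype.card_pos_iff.2 ⟨0⟩
  have hI : (0 : ℝ) < Fintype.card I := by exact_mod_cast Fintype.card_pos_iff.2 ⟨0⟩
  have hW : (Fintype.card (O × I) : ℝ) = Fintype.card O * Fintype.card I := by
    rw [Fintype.card_prod]; push_cast; ring
  have hZO : (Fintype.card (ZMod 2 × O) : ℝ) = 2 * Fintype.card O := by
    rw [Fintype.card_prod, ZMod.card]; push_cast; ring
  have h11 : (1 : ZMod 2) + 1 = 0 := rfl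
  set m01 : ℝ := (∑ a, ∑ b, h (0, a) (1, b)) / ((Fintype.card (O × I) : ℝ) * Fintype.card (O × I))
    with hm01
  set m10 : ℝ := (∑ a, ∑ b, h (1, a) (0, b)) / ((Fintype.card (O × I) : ℝ) * Fintype.card (O × I))
    with hm10
  have hM : m01 + m10 = 2 * c := by
    have e1 : ∑ z : O, ∑ o : ZMod 2 × O, ∑ i : I, ∑ i' : I, f (o, i) (o + (1, z), i')
        = Fintype.card O * (c * (2 * Fintype.card O * (Fintype.card I * Fintype.card I))) := by
      rw [Finset.sum_congr rfl (fun z _ => h1 ((1 : ZMod 2), z) (by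
        intro h'; have := (Prod.ext_iff.1 h').1; simp at this)), Finset.sum_const, card_univ,
        nsmul_eq_mul, hZO]
    have e2 : ∑ z : O, ∑ o : ZMod 2 × O, ∑ i : I, ∑ i' : I, f (o, i) (o + (1, z), i')
        = (∑ a : O × I, ∑ b : O × I, h (0, a) (1, b)) + ∑ a : O × I, ∑ b : O × I, h (1, a) (0, b) := by
      rw [Finset.sum_comm, Fintype.sum_prod_type, sum_z2]
      congr 1
      · rw [Fintype.sum_prod_type]
        apply Finset.sum_congr rfl; intro o _
        rw [Finset.sum_comm]
        apply Finset.sum_congr rfl; intro i _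
        rw [Fintype.sum_prod_type]
        exact Fintype.sum_equiv (Equiv.addLeft o) _ _ (fun z => rfl)
      · rw [Fintype.sum_prod_type]
        apply Finset.sum_congr rfl; intro o _
        rw [Finset.sum_comm]
        apply Finset.sum_congr rfl; intro i _
        rw [Fintype.sum_prod_type]
        exact Fintype.sum_equiv (Equiv.addLeft o) _ _ (fun z => rfl)
    rw [hm01, hm10, ← add_div, ← e2, e1, hW]
    field_simp
  -- the induction hypothesis
  let h' : O × I → O × I → ℝ := fun a b => h (0, a) (0, b) + h (1, a) (1, b)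
  have hI1 : ∀ z : O, z ≠ 0 → ∑ o, ∑ i, ∑ i', h' (o, i) (o + z, i')
      = (2 * c) * (Fintype.card O * (Fintype.card I * Fintype.card I)) := by
    intro z hz
    have e1 := h1 ((0 : ZMod 2), z) (by
      intro h'; exact hz (Prod.ext_iff.1 h').2)
    rw [Fintype.sum_prod_type, sum_z2, hZO] at e1
    simp only [h', Finset.sum_add_distrib]
    have e2 : (2 * c) * (Fintype.card O * (Fintype.card I * Fintype.card I) : ℝ)
      = c * (2 * Fintype.card O * (Fintype.card I * Fintype.card I)) := by ring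
    rw [e2, ← e1]
    rfl
  have hI2 : ∀ d : I, d ≠ 0 → ∑ o, ∑ i, h' (o, i) (o, i + d)
      = (2 * c) * (Fintype.card O * Fintype.card I) := by
    intro d hd
    have e1 := h2 d hd
    rw [Fintype.sum_prod_type, sum_z2, hZO] at e1
    simp only [h', Finset.sum_add_distrib]
    have e2 : (2 * c) * (Fintype.card O * Fintype.card I : ℝ)
      = c * (2 * Fintype.card O * Fintype.card I) := by ring
    rw [e2, ← e1]
    rfl
  have ih := hL.avg h' (2 * c) hI1 hI2
  obtain ⟨e1, w⟩ := x
  obtain ⟨e2, w'⟩ := y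
  by_cases hw : w = w'
  · subst hw
    have hne : e1 ≠ e2 := fun h' => hxy' (by rw [h'])
    rw [top_eq _ hne]
    have : run (hal L) h (e1, w) (e2, w) + run (hal L) h (e2, w) (e1, w) = m01 + m10 := by
      rcases z2 e1 with rfl | rfl <;> rcases z2 e2 with rfl | rfl
      · exact absurd rfl hne
      · rw [hal_01_uni hL.uni, hal_10_uni hL.uni]
      · rw [hal_01_uni hL.uni, hal_10_uni hL.uni, add_comm]
      · exact absurd rfl hne
    rw [this, hM]; ring
  · rw [top_ne _ _ _ hw, hal_01_uni hL.uni, hal_10_uni hL.uni, ← hm01, ← hm10, hal_same, hal_same]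
    have e3 := ih w w' hw
    have e4 := run_lin L (fun a b => h (0, a) (0, b)) (fun a b => h (1, a) (1, b)) 1 1 w w'
    simp only [one_mul] at e4
    have e5 : run L (fun a b => h (0, a) (0, b)) w w' + run L (fun a b => h (1, a) (1, b)) w w'
      = 2 * c := by rw [← e4]; exact e3
    linarith

theorem QF.step {L : List (Lz (O × I))} (hL : QF O I L) :
    QF (ZMod 2 × O) I
      ((hal L ++ topL (O × I)).map (Lz.map (Equiv.prodAssoc (ZMod 2) O I).symm.toEmbedding)) := by
  refine ⟨ok_map ?_ _, uni_map (uni_E' hL.uni) _, ?_⟩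
  · intro t ht
    rw [List.mem_append] at ht
    rcases ht with ht | ht
    · exact ok_hal hL.ok t ht
    · exact ok_top _ t ht
  intro f
  set e := (Equiv.prodAssoc (ZMod 2) O I).symm with he
  let h : ZMod 2 × (O × I) → ZMod 2 × (O × I) → ℝ := fun a b => f (e a) (e b)
  let G : ZMod 2 × (O × I) → ZMod 2 × (O × I) → ℝ := run (topL (O × I)) h
  have hG : ∀ e1 e2 e3 e4 : ZMod 2, ∀ w w' : O × I, w ≠ w' →
      G (e1, w) (e2, w') = G (e3, w) (e4, w') := by
    intro e1 e2 e3 e4 w w' hw
    simp only [G]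
    rw [top_ne _ _ _ hw, top_ne _ _ _ hw]
  obtain ⟨g, k, hgk⟩ := hL.cls (fun a b => G (0, a) (0, b))
  let M : ℝ := (∑ a, ∑ b, G (0, a) (1, b)) / ((Fintype.card (O × I) : ℝ) * Fintype.card (O × I))
  have h11 : (1 : ZMod 2) + 1 = 0 := rfl
  have hee : ∀ e : ZMod 2, e + e = 0 := by decide
  refine ⟨fun o => if o.1 = 0 then g o.2 else M, k, ?_⟩
  intro x y hxy
  obtain ⟨x, rfl⟩ := e.surjective x
  obtain ⟨y, rfl⟩ := e.surjective y
  have h0 := run_map e.toEmbedding (hal L ++ topL (O × I)) f x y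
  rw [Equiv.coe_toEmbedding] at h0
  rw [h0, run_append]
  have hxy' : x ≠ y := fun h' => hxy (by rw [h'])
  change run (hal L) G x y = _
  obtain ⟨e1, w⟩ := x
  obtain ⟨e2, w'⟩ := y
  have M10 : (∑ a, ∑ b, G (1, a) (0, b)) = ∑ a, ∑ b, G (0, a) (1, b) := by
    apply Finset.sum_congr rfl; intro a _
    apply Finset.sum_congr rfl; intro b _
    by_cases hab : a = b
    · subst hab
      simp only [G]
      rw [top_eq _ (by decide), top_eq _ (by decide), add_comm]
    · exact hG _ _ _ _ _ _ hab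
  by_cases hee' : e1 = e2
  · subst hee'
    have hw : w ≠ w' := fun h' => hxy' (by rw [h'])
    rw [hal_same, run_congr (f' := fun a b => G (0, a) (0, b))
      (fun a b hab => hG _ _ _ _ _ _ hab) hw, hgk w w' hw]
    obtain ⟨o, i⟩ := w
    obtain ⟨o', i'⟩ := w'
    simp only [he, Equiv.prodAssoc_symm_apply, ne_eq, Prod.mk.injEq, true_and, Prod.mk_add_mk,
      hee, if_true]
  · have h3 : run (hal L) G (e1, w) (e2, w') = M := by
      rcases z2 e1 with rfl | rfl <;> rcases z2 e2 with rfl | rfl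
      · exact absurd rfl hee'
      · rw [hal_01_uni hL.uni]
      · rw [hal_10_uni hL.uni, M10]
      · exact absurd rfl hee'
    have h4 : e1 + e2 ≠ 0 := by
      rcases z2 e1 with rfl | rfl <;> rcases z2 e2 with rfl | rfl
      · exact absurd rfl hee'
      · decide
      · decide
      · exact absurd rfl hee'
    rw [h3]
    obtain ⟨o, i⟩ := w
    obtain ⟨o', i'⟩ := w'
    simp only [he, Equiv.prodAssoc_symm_apply, ne_eq, Prod.mk.injEq, hee', false_and,
      not_false_eq_true, if_true, Prod.mk_add_mk, h4, if_false]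

end Pass

end Pool.Agent.NH92.Shuf
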