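import Pool.Agent.NH92.Shuf.Pass

/-!
The two butterfly passes on a product of two copies of a group of exponent two.
-/

namespace Pool.Agent.NH92.Shuf

open Finset

namespace Pass

variable {O I : Type} [AddCommGroup O] [AddCommGroup I] [DecidableEq O] [DecidableEq I]
  [Fintype O] [Fintype I]

/-- splitting off the first bit -/
def bitsSucc (k : ℕ) : (ZMod 2 × (Fin k → ZMod 2)) ≃+ (Fin (k + 1) → ZMod 2) where
  toFun p := Fin.cons p.1 p.2
  invFun x := (x 0, Fin.tail x)
  left_inv p := by simp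
  right_inv x := by simp
  map_add' p q := by
    ext i
    refine Fin.cases ?_ (fun j => ?_) i <;> simp

theorem len_top (W : Type*) [Fintype W] : (topL W).length = Fintype.card W := by
  simp [topL, RR]

theorem len_hal {W : Type*} (L : List (Lz W)) : (hal L).length = 2 * L.length := by
  simp [hal]; ring

theorem card_bits (k : ℕ) : Fintype.card (Fin k → ZMod 2) = 2 ^ k := by
  simp

theorem QE.recur (L0 : List (Lz ((Fin 0 → ZMod 2) × I))) (h : QE (Fin 0 → ZMod 2) I L0) (k : ℕ) :
    ∃ L, QE (Fin k → ZMod 2) I L ∧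
      2 * L.length = 2 ^ (k + 1) * L0.length + k * 2 ^ k * Fintype.card I := by
  induction k with
  | zero => exact ⟨L0, h, by simp⟩
  | succ k ih =>
    obtain ⟨L, hL, hl⟩ := ih
    refine ⟨_, (hL.step).map (bitsSucc k) (AddEquiv.refl I), ?_⟩
    simp only [List.length_map, List.length_append, len_top, len_hal, Fintype.card_prod, card_bits]
    have : 2 * (2 ^ k * Fintype.card I + 2 * L.length)
      = 2 * (2 ^ k * Fintype.card I) + 2 * (2 * L.length) := by ring
    rw [this, hl]; ring

theorem QF.recur (L0 : List (Lz ((Fin 0 → ZMod 2) × I))) (h : QF (Fin 0 → ZMod 2) I L0) (k : ℕ) :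
    ∃ L, QF (Fin k → ZMod 2) I L ∧
      2 * L.length = 2 ^ (k + 1) * L0.length + k * 2 ^ k * Fintype.card I := by
  induction k with
  | zero => exact ⟨L0, h, by simp⟩
  | succ k ih =>
    obtain ⟨L, hL, hl⟩ := ih
    refine ⟨_, (hL.step).map (bitsSucc k) (AddEquiv.refl I), ?_⟩
    simp only [List.length_map, List.length_append, len_top, len_hal, Fintype.card_prod, card_bits]
    have : 2 * (2 * L.length + 2 ^ k * Fintype.card I)
      = 2 * (2 ^ k * Fintype.card I) + 2 * (2 * L.length) := by ring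
    rw [this, hl]; ring

theorem uni_base {W : Type*} [DecidableEq W] [Fintype W] [Subsingleton W] :
    Uni ([] : List (Lz W)) := by
  intro g x
  have : Unique W := ⟨⟨x⟩, fun y => Subsingleton.elim _ _⟩
  rw [Fintype.sum_unique, Fintype.card_unique, Subsingleton.elim x default]
  simp

theorem QE.base : QE (Fin 0 → ZMod 2) Unit [] :=
  ⟨by simp, uni_base, fun _ _ _ _ x y hxy => absurd (Subsingleton.elim x y) hxy⟩

theorem QF.base : QF (Fin 0 → ZMod 2) Unit [] :=
  ⟨by simp, uni_base, fun _ => ⟨fun _ => 0, fun _ => 0,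
    fun x y hxy => absurd (Subsingleton.elim x y) hxy⟩⟩

/-- exchange of the roles -/
def swapE (I : Type) : (I × Unit) ≃ ((Fin 0 → ZMod 2) × I) where
  toFun p := (default, p.1)
  invFun p := (p.2, ())
  left_inv p := rfl
  right_inv p := by
    ext
    · rename_i x; exact x.elim0
    · rfl

theorem QE.swap {L : List (Lz (I × Unit))} (h : QE I Unit L) :
    QE (Fin 0 → ZMod 2) I (L.map (Lz.map (swapE I).toEmbedding)) := by
  refine ⟨ok_map h.ok _, uni_map h.uni _, ?_⟩
  intro f c _ h2 x y hxy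
  set e := swapE I with he
  obtain ⟨x, rfl⟩ := e.surjective x
  obtain ⟨y, rfl⟩ := e.surjective y
  have := run_map e.toEmbedding L f x y
  rw [Equiv.coe_toEmbedding] at this
  rw [this]
  apply h.avg _ c
  · intro z hz
    have h3 := h2 z hz
    rw [Fintype.sum_unique] at h3
    simp only [univ_unique, sum_singleton, Fintype.card_unit, Nat.cast_one, mul_one]
    rw [Fintype.card_unique, Nat.cast_one, one_mul] at h3
    rw [← h3]
    apply Finset.sum_congr rfl; intro i _
    have e4 : ∀ d1 d2 : Fin 0 → ZMod 2, f (d1, i) (d1, i + z) = f (d2, i) (d2, i + z) :=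
      fun d1 d2 => by rw [Subsingleton.elim d1 d2]
    exact e4 _ _
  · intro d hd
    exact absurd (Subsingleton.elim d 0) hd
  · exact fun h' => hxy (by rw [h'])

theorem QF.swap {L : List (Lz (I × Unit))} (h : QF I Unit L) :
    QF (Fin 0 → ZMod 2) I (L.map (Lz.map (swapE I).toEmbedding)) := by
  refine ⟨ok_map h.ok _, uni_map h.uni _, ?_⟩
  intro f
  set e := swapE I with he
  obtain ⟨g, k, hgk⟩ := h.cls (fun a b => f (e a) (e b))
  refine ⟨fun _ => 0, g, ?_⟩
  intro x y hxy
  obtain ⟨x, rfl⟩ := e.surjective x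
  obtain ⟨y, rfl⟩ := e.surjective y
  have := run_map e.toEmbedding L f x y
  rw [Equiv.coe_toEmbedding] at this
  rw [this, hgk x y (fun h' => hxy (by rw [h']))]
  have hne : x.1 ≠ y.1 := fun h' => hxy (by
    have : x = y := Prod.ext h' rfl
    rw [this])
  rw [if_pos hne, if_neg (by simp only [ne_eq, not_not]; exact Subsingleton.elim _ _)]
  rfl

theorem exists_QE (k : ℕ) {F : Type} [AddCommGroup F] [DecidableEq F] [Fintype F]
    (φ : (Fin k → ZMod 2) ≃+ F) : ∃ L : List (Lz (F × F)), QE F F L ∧ L.length = k * 4 ^ k := by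
  obtain ⟨L1, h1, l1⟩ := QE.recur [] QE.base k
  obtain ⟨L2, h2, l2⟩ := QE.recur _ h1.swap k
  refine ⟨_, h2.map φ φ, ?_⟩
  rw [List.length_map]
  simp only [List.length_map, List.length_nil, mul_zero, zero_add, Fintype.card_unit, mul_one,
    card_bits] at l1 l2
  have e1 : 2 ^ (k + 1) * L1.length = 2 ^ k * (2 * L1.length) := by ring
  rw [e1, l1] at l2
  have e2 : (4 : ℕ) ^ k = 2 ^ k * 2 ^ k := by rw [← mul_pow]; norm_num
  rw [e2]
  have : 2 * L2.length = 2 * (k * (2 ^ k * 2 ^ k)) := by rw [l2]; ring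
  omega

theorem exists_QF (k : ℕ) {F : Type} [AddCommGroup F] [DecidableEq F] [Fintype F]
    (φ : (Fin k → ZMod 2) ≃+ F) : ∃ L : List (Lz (F × F)), QF F F L ∧ L.length = k * 4 ^ k := by
  obtain ⟨L1, h1, l1⟩ := QF.recur [] QF.base k
  obtain ⟨L2, h2, l2⟩ := QF.recur _ h1.swap k
  refine ⟨_, h2.map φ φ, ?_⟩
  rw [List.length_map]
  simp only [List.length_map, List.length_nil, mul_zero, zero_add, Fintype.card_unit, mul_one,
    card_bits] at l1 l2
  have e1 : 2 ^ (k + 1) * L1.length = 2 ^ k * (2 * L1.length) := by ring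
  rw [e1, l1] at l2
  have e2 : (4 : ℕ) ^ k = 2 ^ k * 2 ^ k := by rw [← mul_pow]; norm_num
  rw [e2]
  have : 2 * L2.length = 2 * (k * (2 ^ k * 2 ^ k)) := by rw [l2]; ring
  omega

end Pass

end Pool.Agent.NH92.Shuf
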