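import Pool.Agent.NH92.Shuf.Main

/-!
The upper bound for every number of points.
-/

namespace Pool.Agent.NH92.Shuf

theorem TB_all (n : ℕ) (hn : 1 ≤ n) :
    ∃ l : ℕ, TB n l ∧ (l : ℝ) ≤ 8 * n * Real.logb 2 n + 5 * n := by
  set k := Nat.log 4 n with hk
  have h1 : 4 ^ k ≤ n := Nat.pow_log_le_self 4 (by omega)
  have h2 : n < 4 ^ (k + 1) := Nat.lt_pow_succ_log_self (by norm_num) n
  have hN : 1 ≤ 4 ^ k := Nat.one_le_pow _ _ (by norm_num)
  have h2' : n < 4 * 4 ^ k := by rw [pow_succ] at h2; omega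
  have hn1 : (1 : ℝ) ≤ n := by exact_mod_cast hn
  have hN1 : (1 : ℝ) ≤ (4 : ℝ) ^ k := by exact_mod_cast hN
  have hNn : (4 : ℝ) ^ k ≤ n := by exact_mod_cast h1
  have hk0 : (0 : ℝ) ≤ k := by positivity
  set L := Real.logb 2 (n : ℝ) with hL
  have hLk : 2 * (k : ℝ) ≤ L := by
    rw [hL, Real.le_logb_iff_rpow_le (by norm_num) (by linarith)]
    have : (2 : ℝ) ^ (2 * (k : ℝ)) = 4 ^ k := by
      rw [show (2 : ℝ) * k = ((2 * k : ℕ) : ℝ) by push_cast; ring, Real.rpow_natCast, pow_mul]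
      norm_num
    rw [this]; exact hNn
  have hT : TB (4 ^ k) ((2 * k + 1) * 4 ^ k) := TB_four_pow k
  by_cases hc : n ≤ 2 * 4 ^ k
  · -- one extension
    have h3 : TB ((n - 4 ^ k) + (2 * 4 ^ k - n)) ((2 * k + 1) * 4 ^ k) := by
      have : (n - 4 ^ k) + (2 * 4 ^ k - n) = 4 ^ k := by omega
      rw [this]; exact hT
    have h4 := h3.ext
    have h5 : 2 * (n - 4 ^ k) + (2 * 4 ^ k - n) = n := by omega
    rw [h5] at h4
    refine ⟨_, h4, ?_⟩
    push_cast [h1]
    have a1 : (2 * (k : ℝ) + 1) * 4 ^ k ≤ (L + 1) * n :=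
      mul_le_mul (by linarith) hNn (by positivity) (by linarith)
    have a2 : 0 ≤ L * n := mul_nonneg (by linarith) (by linarith)
    nlinarith
  · push Not at hc
    set n' := (n + 1) / 2 with hn'
    have h3 : TB ((n' - 4 ^ k) + (2 * 4 ^ k - n')) ((2 * k + 1) * 4 ^ k) := by
      have : (n' - 4 ^ k) + (2 * 4 ^ k - n') = 4 ^ k := by omega
      rw [this]; exact hT
    have h4 := h3.ext
    have h5 : 2 * (n' - 4 ^ k) + (2 * 4 ^ k - n') = n' := by omega
    rw [h5] at h4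
    have h6 : TB ((n - n') + (2 * n' - n)) (4 * ((2 * k + 1) * 4 ^ k) + (n' - 4 ^ k)) := by
      have : (n - n') + (2 * n' - n) = n' := by omega
      rw [this]; exact h4
    have h7 := h6.ext
    have h8 : 2 * (n - n') + (2 * n' - n) = n := by omega
    rw [h8] at h7
    refine ⟨_, h7, ?_⟩
    have hLk2 : 2 * (k : ℝ) + 1 ≤ L := by
      rw [hL, Real.le_logb_iff_rpow_le (by norm_num) (by linarith)]
      have : (2 : ℝ) ^ (2 * (k : ℝ) + 1) = 2 * 4 ^ k := by
        rw [show (2 : ℝ) * k + 1 = ((2 * k + 1 : ℕ) : ℝ) by push_cast; ring, Real.rpow_natCast,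
          pow_succ, pow_mul]
        norm_num; ring
      rw [this]; exact_mod_cast hc.le
    have hn'1 : 4 ^ k ≤ n' := by omega
    have hn'2 : n' ≤ n := by omega
    have hc' : 2 * (4 : ℝ) ^ k ≤ n := by exact_mod_cast hc.le
    have hn'3 : 2 * n' ≤ n + 1 := by omega
    have hn'4 : (2 : ℝ) * n' ≤ n + 1 := by exact_mod_cast hn'3
    have hn'5 : (0 : ℝ) ≤ n' := by positivity
    push_cast [hn'1, hn'2]
    have a1 : (2 * (k : ℝ) + 1) * (2 * 4 ^ k) ≤ L * n :=
      mul_le_mul hLk2 hc' (by positivity) (by linarith)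
    nlinarith

end Pool.Agent.NH92.Shuf
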